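import Pool.Agent.H39.Newt5.Stmts

/-! # Project NEWTON5: affine independence and relations -/

set_option autoImplicit false

namespace Pool.Newt5

open MvPolynomial Pool.Newt

variable {n : ℕ}

theorem ker_of_aff {J ι : Type} [Fintype J] [Finite ι] (x : J → Fin n → ℕ) (e : ι → J)
    (he : Function.Injective e) (κ : J → ℤ) (hκ : κ ∈ Ker x)
    (h0 : ∀ j, (∀ i, e i ≠ j) → κ j = 0)
    (hx : AffineIndependent ℚ (fun (i : ι) (l : Fin n) => (x (e i) l : ℚ))) : κ = 0 := by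
  classical
  have : Fintype ι := Fintype.ofFinite ι
  obtain ⟨hκ1, hκ2⟩ := mem_Ker.1 hκ
  have hsum : ∀ g : J → ℚ, (∀ j, (∀ i, e i ≠ j) → g j = 0) → ∑ i, g (e i) = ∑ j, g j := by
    intro g hg
    rw [← Finset.sum_subset (Finset.subset_univ (Finset.univ.image e)) (fun j _ hj => hg j
      (fun i hi => hj (Finset.mem_image.2 ⟨i, Finset.mem_univ i, hi⟩))),
      Finset.sum_image (fun i _ i' _ h => he h)]
  rw [affineIndependent_iff] at hx
  have h8 := hx Finset.univ (fun m => (κ (e m) : ℚ)) (by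
      rw [hsum (fun j => (κ j : ℚ)) (fun j hj => by rw [h0 j hj, Int.cast_zero])]
      exact_mod_cast hκ1) (by
      funext l
      rw [Finset.sum_apply]
      have := hsum (fun j => (κ j : ℚ) * (x j l : ℚ)) (fun j hj => by
        rw [h0 j hj, Int.cast_zero, zero_mul])
      simp only [Pi.smul_apply, smul_eq_mul, Pi.zero_apply]
      have h5 : ∑ j, (κ j : ℚ) * ((x j l : ℕ) : ℚ) = 0 := by exact_mod_cast hκ2 l
      rw [h5] at this
      exact this)
  funext j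
  by_cases hj : ∃ i, e i = j
  · obtain ⟨i, rfl⟩ := hj
    have h6 : (κ (e i) : ℚ) = 0 := h8 i (Finset.mem_univ _)
    exact_mod_cast h6
  · push Not at hj
    exact h0 j hj

theorem mem_span_of_ker {J : Type} [Fintype J] (x : J → Fin n → ℕ) (κ : J → ℤ) (hκ : κ ∈ Ker x)
    (i : J) (hi : κ i ≠ 0) : (fun l => (x i l : ℚ)) ∈
      affineSpan ℚ {y : Fin n → ℚ | ∃ i', i' ≠ i ∧ κ i' ≠ 0 ∧ y = fun l => (x i' l : ℚ)} := by
  classical
  obtain ⟨hκ1, hκ2⟩ := mem_Ker.1 hκ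
  have hκi : (κ i : ℚ) ≠ 0 := by exact_mod_cast hi
  let Z : Finset J := Finset.univ.filter fun i' => i' ≠ i ∧ κ i' ≠ 0
  have hZ : ∀ i', i' ∈ Z ↔ i' ≠ i ∧ κ i' ≠ 0 := fun i' => by simp [Z]
  have hsum : ∀ g : J → ℚ, (∀ i', κ i' = 0 → g i' = 0) →
      ∑ i' : Z, g i'.1 = (∑ i', g i') - g i := by
    intro g hg
    rw [Finset.sum_coe_sort Z g, ← Finset.sum_erase_eq_sub (Finset.mem_univ i)]
    refine Finset.sum_subset ?_ ?_
    · intro i' hi'
      rw [Finset.mem_erase]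
      exact ⟨((hZ i').1 hi').1, Finset.mem_univ _⟩
    · intro i' hi' hni
      rw [Finset.mem_erase] at hi'
      refine hg i' ?_
      by_contra h
      exact hni ((hZ i').2 ⟨hi'.1, h⟩)
  have hs1 : ∑ i' : Z, (-(κ i'.1 : ℚ) / (κ i : ℚ)) = 1 := by
    rw [hsum (fun i' => -(κ i' : ℚ) / (κ i : ℚ)) (fun i' hi' => by simp [hi']),
      ← Finset.sum_div, Finset.sum_neg_distrib]
    have : (∑ i', (κ i' : ℚ)) = 0 := by exact_mod_cast hκ1
    rw [this]
    field_simp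
    ring
  have h13 := affineCombination_mem_affineSpan (s := (Finset.univ : Finset Z))
    (w := fun i' => (-(κ i'.1 : ℚ) / (κ i : ℚ))) hs1
    (fun (i' : Z) (j : Fin n) => (x i'.1 j : ℚ))
  rw [Finset.affineCombination_eq_linear_combination _ _ _ hs1] at h13
  have h14 : ∑ i' : Z, (-(κ i'.1 : ℚ) / (κ i : ℚ)) • (fun (j : Fin n) => (x i'.1 j : ℚ)) =
      fun j => (x i j : ℚ) := by
    funext j
    rw [Finset.sum_apply]
    simp only [Pi.smul_apply, smul_eq_mul]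
    rw [hsum (fun i' => (-(κ i' : ℚ) / (κ i : ℚ)) * (x i' j : ℚ))
      (fun i' hi' => by simp [hi'])]
    have h15 : ∑ i' : J, (κ i' : ℚ) * ((x i' j : ℕ) : ℚ) = 0 := by
      exact_mod_cast hκ2 j
    have h16 : ∑ i' : J, (-(κ i' : ℚ) / (κ i : ℚ)) * (x i' j : ℚ) =
        -(1 / (κ i : ℚ)) * ∑ i' : J, (κ i' : ℚ) * ((x i' j : ℕ) : ℚ) := by
      rw [Finset.mul_sum]
      refine Finset.sum_congr rfl fun i' _ => ?_
      ring
    rw [h16, h15]
    field_simp
    ring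
  rw [h14] at h13
  refine affineSpan_mono ℚ ?_ h13
  rintro _ ⟨i', rfl⟩
  obtain ⟨h17, h18⟩ := (hZ i'.1).1 i'.2
  exact ⟨i'.1, h17, h18, rfl⟩

end Pool.Newt5
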