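import Pool.Agent.H39.Newt5.HDefs
import Pool.Agent.H39.Newt5.Fin0
import Pool.Agent.H39.Newt5.Aff
import Pool.Agent.H39.Newt.GenCases
import Mathlib.Analysis.Convex.Combination

/-! # Project NEWTON5: the statement for a polynomial and its support -/

set_option autoImplicit false

namespace Pool.Newt5.HI

open MvPolynomial Pool.Newt Pool.Newt3
open Pool.Agent.H39.MonoR (Zmot RS IsRoot)
open Pool.Newt.HI (N Face Generic)
open Pool.Newt4 (SimpF)

variable {k : Subfield ℂ} {n : ℕ}

theorem main (hCof : SCof) (hRcg : SRcg) (hRoo : SRoo) (hNdg : SNdg)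
    (hRct : SRct) (hLcw : SLcw) (hLcz : SLcz) (hRes : SRes) (hRgd : SRgd) (hZtb : SZtb)
    (f : MvPolynomial (Fin n) k) (hf : ∃ l, pderiv l f ≠ 0) (V : Set (Fin n →₀ ℕ)) (hV : Hull f V)
    (hn : Nondegenerate f ∨ Generic f)
    (hB : ∀ w, HI.Rigid f w → 0 < N f w → ∑ l, w l = N f w ∨ SimplicialFrom f w ∨
      Labelled f V w ∨ (Generic f ∧ ((∃ w', HI.Good f w' ∧ 0 < N f w' ∧
        (∑ l, w l) * N f w' = (∑ l, w' l) * N f w) ∨ Simplicial f V w))) :
    ∃ S : Finset (ℤ × ℕ), (∀ p ∈ S, p.1 < 0 ∧ 0 < p.2) ∧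
      Zmot k f ∈ RS k (S : Set (ℤ × ℕ)) ∧ ∀ p ∈ S, IsRoot k f (p.1 / p.2) := by
  classical
  let a : f.support → Fin n → ℕ := fun m l => m.1 l
  let c : f.support → k := fun m => f.coeff m.1
  have hpoly : poly a c = f := by
    unfold poly
    have e1 : ∀ m : f.support, Finsupp.equivFunOnFinite.symm (a m) = m.1 := by
      intro m
      ext l
      rfl
    simp only [e1]
    rw [Finset.sum_coe_sort f.support (fun m => monomial m (f.coeff m))]
    exact (f.as_sum).symm
  have h0 : f ≠ 0 := by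
    rintro rfl
    obtain ⟨l, hl⟩ := hf
    exact hl (map_zero _)
  have hu : ¬ IsUnit f := by
    intro h
    rw [MvPolynomial.isUnit_iff_eq_C_of_isReduced] at h
    obtain ⟨r, -, hr⟩ := h
    obtain ⟨l, hl⟩ := hf
    exact hl (by rw [hr, pderiv_C])
  have hI : Nonempty f.support := by
    obtain ⟨m, hm⟩ := support_nonempty.2 h0
    exact ⟨⟨m, hm⟩⟩
  have hc : ∀ i, c i ≠ 0 := fun i => mem_support_iff.1 i.2
  have hdot : ∀ (w : Fin n → ℕ) (i : f.support), dot w (a i) = ∑ l, w l * i.1 l := fun w i => rfl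
  have hN : ∀ w : Fin n → ℕ, Nw a w = N f w := by
    intro w
    unfold Nw HI.N
    congr 1
    ext d
    constructor
    · rintro ⟨i, rfl⟩
      exact ⟨i.1, i.2, rfl⟩
    · rintro ⟨m, hm, rfl⟩
      exact ⟨⟨m, hm⟩, rfl⟩
  have hface : ∀ (w : Fin n → ℕ) (i : f.support), i ∈ face a w ↔ i.1 ∈ Face f w := by
    intro w i
    rw [mem_face_iff, hN]
    exact ⟨fun h => ⟨i.2, h⟩, fun h => h.2⟩
  have hrig : ∀ w : Fin n → ℕ, Pool.Newt.Rigid a w → HI.Rigid f w := by
    intro w h
    unfold Pool.Newt.Rigid at h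
    unfold HI.Rigid
    let e : Face f w → face a w := fun m => ⟨⟨m.1, m.2.1⟩, (hface w ⟨m.1, m.2.1⟩).2 m.2⟩
    have he : Function.Surjective e := by
      intro i
      exact ⟨⟨i.1.1, (hface w i.1).1 i.2⟩, rfl⟩
    have := h.map' (LinearMap.funLeft ℚ ℚ e) (LinearMap.ker_eq_bot.2
      (LinearMap.funLeft_injective_of_surjective ℚ ℚ e he))
    exact this
  have hgood : ∀ w : Fin n → ℕ, HI.Good f w → Pool.Newt.Good a w := by
    rintro w ⟨s, hs, h1, h2, h3⟩
    let s' : Finset f.support := Finset.univ.filter fun i => i.1 ∈ s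
    have hs' : ∀ i, i ∈ s' ↔ i.1 ∈ s := fun i => by simp [s']
    refine ⟨s', fun i hi => (hface w i).2 (hs ((hs' i).1 hi)), ?_, ?_, ?_⟩
    · intro κ hκ hκ0
      obtain ⟨hκ1, hκ2⟩ := mem_Ker.1 hκ
      by_contra hne
      have hsf : Finite s := by
        refine Set.Finite.subset (f.support.finite_toSet) fun m hm => (hs hm).1
      have : Fintype s := Fintype.ofFinite s
      let e : s → f.support := fun m => ⟨m.1, (hs m.2).1⟩
      have hsum : ∀ g : f.support → ℚ, (∀ i, i ∉ s' → g i = 0) → ∑ m : s, g (e m) = ∑ i, g i := by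
        intro g hg
        rw [← Finset.sum_subset (Finset.subset_univ s') (fun i _ hi => hg i hi)]
        refine Finset.sum_bij (fun m _ => e m) (fun m _ => (hs' _).2 m.2) ?_ ?_ ?_
        · intro m _ m' _ h
          exact Subtype.ext (congrArg (fun i : f.support => i.1) h)
        · intro i hi
          exact ⟨⟨i.1, (hs' i).1 hi⟩, Finset.mem_univ _, rfl⟩
        · intro m _
          rfl
      rw [affineIndependent_iff] at h1
      have h4 := h1 Finset.univ (fun m => (κ (e m) : ℚ)) (by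
          rw [hsum (fun i => (κ i : ℚ)) (fun i hi => by simp [hκ0 i hi])]
          exact_mod_cast hκ1) (by
          funext l
          rw [Finset.sum_apply]
          have := hsum (fun i => (κ i : ℚ) * (i.1 l : ℚ)) (fun i hi => by simp [hκ0 i hi])
          simp only [Pi.smul_apply, smul_eq_mul, Pi.zero_apply]
          have h5 : ∑ i, (κ i : ℚ) * ((i.1 l : ℕ) : ℚ) = 0 := by exact_mod_cast hκ2 l
          rw [h5] at this
          exact this)
      apply hne
      funext i
      by_cases hi : i ∈ s'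
      · have := h4 ⟨i.1, (hs' i).1 hi⟩ (Finset.mem_univ _)
        have h6 : (κ i : ℚ) = 0 := this
        exact_mod_cast h6
      · exact hκ0 i hi
    · let e : s' → s := fun i => ⟨i.1.1, (hs' i.1).1 i.2⟩
      have he : Function.Surjective e := by
        intro m
        exact ⟨⟨⟨m.1, (hs m.2).1⟩, (hs' _).2 m.2⟩, rfl⟩
      have := h2.map' (LinearMap.funLeft ℚ ℚ e) (LinearMap.ker_eq_bot.2
        (LinearMap.funLeft_injective_of_surjective ℚ ℚ e he))
      exact this
    · intro l hl i hi ⟨h4, h5⟩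
      refine h3 l hl ⟨i.1, (hs' i).1 hi, h4, fun m' hm' hne => ?_⟩
      exact h5 ⟨m', (hs hm').1⟩ ((hs' _).2 hm') (fun h => hne (congrArg (fun i : f.support => i.1) h))
  have ha : Function.Injective a := by
    intro i i' h
    apply Subtype.ext
    ext l
    exact congrFun h l
  -- the set `V`
  let V' : Finset f.support := Finset.univ.filter fun i => i.1 ∈ V
  have hV' : ∀ i, i ∈ V' ↔ i.1 ∈ V := fun i => by simp [V']
  have hcvx : Cvx a V' := by
    intro j
    let φ : f.support → Fin n → ℚ := fun i l => (a i l : ℚ)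
    have hφ : Function.Injective φ := by
      intro i i' h
      apply ha
      funext l
      have h0 : (a i l : ℚ) = (a i' l : ℚ) := congrFun h l
      exact_mod_cast h0
    have h1 := hV.2 j.1 j.2
    have h2 : ((fun (m : Fin n →₀ ℕ) (l : Fin n) => (m l : ℚ)) '' V) = ((V'.image φ : Finset (Fin n → ℚ)) :
        Set (Fin n → ℚ)) := by
      ext x
      constructor
      · rintro ⟨m, hm, rfl⟩
        exact Finset.mem_coe.2 (Finset.mem_image.2 ⟨⟨m, hV.1 hm⟩, (hV' _).2 hm, rfl⟩)
      · intro hx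
        obtain ⟨i, hi, rfl⟩ := Finset.mem_image.1 (Finset.mem_coe.1 hx)
        exact ⟨i.1, (hV' i).1 hi, rfl⟩
    rw [h2, Finset.mem_convexHull'] at h1
    obtain ⟨q, hq0, hq1, hq2⟩ := h1
    refine ⟨fun i => if i ∈ V' then q (φ i) else 0, fun i => ?_, fun i hi => if_neg hi, ?_,
      fun l => ?_⟩
    · show 0 ≤ (if i ∈ V' then q (φ i) else 0)
      split_ifs with hi
      · exact hq0 _ (Finset.mem_image_of_mem φ hi)
      · exact le_rfl
    · rw [Finset.sum_image fun i _ i' _ h => hφ h] at hq1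
      rw [← hq1, Finset.sum_ite_mem, Finset.univ_inter]
    · rw [Finset.sum_image fun i _ i' _ h => hφ h] at hq2
      have h3 := congrFun hq2 l
      rw [Finset.sum_apply] at h3
      have h4 : ∑ i, (if i ∈ V' then q (φ i) else 0) * (a i l : ℚ) =
          ∑ i ∈ V', (q (φ i) • φ i) l := by
        rw [← Finset.sum_subset (Finset.subset_univ V') (fun i _ hi => by
          rw [if_neg hi, zero_mul])]
        exact Finset.sum_congr rfl fun i hi => by
          rw [if_pos hi]
          rfl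
      rw [h4, h3]
  obtain ⟨_, hR⟩ := hRgd (Fin n) f.support a V' hcvx
  have hface' : ∀ (w : Fin n → ℕ) (i : V'), i ∈ face (rst a V') w ↔ i.1.1 ∈ Face f w :=
    fun w i => ((hR w).2.1 i).trans (hface w i.1)
  -- the ratio
  have hrat : ∀ w w' : Fin n → ℕ, 0 < Nw a w → ((∑ j, w' j : ℕ) : ℚ) =
      -(-((∑ j, w j : ℕ) : ℚ) / (Nw a w : ℚ)) * (Nw a w' : ℚ) →
      (∑ l, w l) * N f w' = (∑ l, w' l) * N f w := by
    intro w w' h1 h2
    have h3 : (Nw a w : ℚ) ≠ 0 := by exact_mod_cast h1.ne'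
    rw [← hN, ← hN]
    have h4 : ((∑ j, w j : ℕ) : ℚ) * (Nw a w' : ℚ) = ((∑ j, w' j : ℕ) : ℚ) * (Nw a w : ℚ) := by
      rw [h2]
      field_simp
    exact_mod_cast h4
  have hrat' : ∀ w w' : Fin n → ℕ, 0 < Nw a w →
      -(-((∑ j, w j : ℕ) : ℚ) / (Nw a w : ℚ)) * (Nw a w' : ℚ) ≤ ((∑ j, w' j : ℕ) : ℚ) →
      (∑ l, w l) * N f w' ≤ (∑ l, w' l) * N f w := by
    intro w w' h1 h2
    have h3 : (0 : ℚ) < (Nw a w : ℚ) := by exact_mod_cast h1
    rw [← hN, ← hN]
    have h4 : ((∑ j, w j : ℕ) : ℚ) * (Nw a w' : ℚ) ≤ ((∑ j, w' j : ℕ) : ℚ) * (Nw a w : ℚ) := by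
      have h5 := mul_le_mul_of_nonneg_right h2 h3.le
      have h6 : -(-((∑ j, w j : ℕ) : ℚ) / (Nw a w : ℚ)) * (Nw a w' : ℚ) * (Nw a w : ℚ) =
          ((∑ j, w j : ℕ) : ℚ) * (Nw a w' : ℚ) := by
        field_simp
      rwa [h6] at h5
    exact_mod_cast h4
  have hsame : ∀ w w' : Fin n → ℕ, 0 < Nw a w → Pool.Newt.Rigid (rst a V') w' →
      0 < Nw (rst a V') w' →
      ((∑ j, w' j : ℕ) : ℚ) = -(-((∑ j, w j : ℕ) : ℚ) / (Nw a w : ℚ)) * (Nw (rst a V') w' : ℚ) →
      Same f w w' := by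
    intro w w' h1 h2 h3 h4
    rw [(hR w').1] at h3 h4
    exact ⟨hrig w' ((hR w').2.2 h2), by rwa [← hN], hrat w w' h1 h4⟩
  -- nondegeneracy
  have hfp : ∀ u : Fin n → ℕ, fpoly a c u = facePoly f u := by
    intro u
    have e1 : ∀ m : f.support, Finsupp.equivFunOnFinite.symm (a m) = m.1 := by
      intro m
      ext l
      rfl
    unfold fpoly facePoly
    rw [Finset.sum_filter, ← Finset.sum_coe_sort f.support]
    refine Finset.sum_congr rfl fun m _ => ?_
    rw [e1]
    by_cases hm : m ∈ face a u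
    · rw [if_pos hm, if_pos ((hface u m).1 hm)]
    · rw [if_neg hm, if_neg (fun h => hm ((hface u m).2 h))]
  have hn' : Ndg a c ∨ Gen a c := by
    rcases hn with hn | hn
    · left
      intro u z hz h
      rw [hfp] at h ⊢
      exact hn u z hz h
    · exact Or.inr hn
  have key := newton5_fin hCof hRcg hRoo hNdg hRct hLcw hLcz hRes hRgd hZtb k (Fin n) f.support a c hc
    ha (by rwa [hpoly]) (by rwa [hpoly]) hn' V' hcvx (by
      intro w h1 h2
      have h2' := h2
      rw [hN] at h2'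
      rcases hB w (hrig w h1) h2' with h3 | h3 | ⟨Y, l, hYV, h3, h4⟩ | ⟨hg, ⟨w', h4, h5, h6⟩ | h3⟩
      · exact Or.inl (by rw [hN]; exact h3)
      · refine Or.inr (Or.inl ?_)
        intro w' h4 h5 h6 κ hκ hκ0
        have h7 := h3 w' ⟨hrig w' h4, by rwa [← hN], hrat' w w' h2 h6⟩
        have : Finite (Face f w') :=
          Set.Finite.subset (f.support.finite_toSet) fun m hm => hm.1
        refine ker_of_aff a (fun m : Face f w' => (⟨m.1, m.2.1⟩ : f.support)) ?_ κ hκ ?_ h7
        · intro m m' h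
          exact Subtype.ext (congrArg (fun i : f.support => i.1) h)
        · intro i hi
          refine hκ0 i fun hif => hi ⟨i.1, (hface w' i).1 hif⟩ rfl
      · refine Or.inr (Or.inr (Or.inl ⟨Finset.univ.filter (fun i => i.1.1 ∈ Y), fun i => l i.1.1,
          ?_, ?_⟩))
        · intro i hi
          rw [Finset.mem_filter] at hi
          exact h3 i.1.1 hi.2
        · intro w' h5 h6 h7
          obtain ⟨⟨m, h8, h9, h10, h11⟩, h12⟩ := h4 w' (hsame w w' h2 h5 h6 h7)
          refine ⟨⟨⟨⟨m, h9.1⟩, (hV' _).2 (hYV h8)⟩, ?_, (hface' w' _).2 h9, h10, ?_⟩, ?_⟩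
          · rw [Finset.mem_filter]
            exact ⟨Finset.mem_univ _, h8⟩
          · intro i' hi' hne
            exact h11 i'.1.1 ((hface' w' i').1 hi') ((hV' _).1 i'.2)
              (fun h => hne (Subtype.ext (Subtype.ext h)))
          · intro i hi hif κ hκ hκ0
            rw [Finset.mem_filter] at hi
            by_contra hne
            refine h12 i.1.1 hi.2 ((hface' w' i).1 hif) ?_
            refine affineSpan_mono ℚ ?_ (mem_span_of_ker (rst a V') κ hκ i hne)
            rintro _ ⟨i', h13, h14, rfl⟩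
            refine ⟨i'.1.1, (hface' w' i').1 ?_, (hV' _).1 i'.2,
              fun h => h13 (Subtype.ext (Subtype.ext h)), rfl⟩
            by_contra h15
            exact h14 (hκ0 i' h15)
      · exact Or.inr (Or.inr (Or.inr ⟨hg, Or.inl ⟨w', hgood w' h4, by rw [hN]; exact h5,
          by rw [hN, hN]; exact h6⟩⟩))
      · refine Or.inr (Or.inr (Or.inr ⟨hg, Or.inr ?_⟩))
        intro w' h4 h5 h6 κ hκ hκ0
        have h7 := h3 w' (hsame w w' h2 h4 h5 h6)
        have : Finite {m // m ∈ Face f w' ∧ m ∈ V} :=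
          Set.Finite.subset (f.support.finite_toSet) fun m hm => hm.1.1
        refine ker_of_aff (rst a V') (fun m : {m // m ∈ Face f w' ∧ m ∈ V} =>
          (⟨⟨m.1, m.2.1.1⟩, (hV' _).2 m.2.2⟩ : V')) ?_ κ hκ ?_ h7
        · intro m m' h
          exact Subtype.ext (congrArg (fun i : V' => i.1.1) h)
        · intro i hi
          refine hκ0 i fun hif => hi ⟨i.1.1, (hface' w' i).1 hif, (hV' _).1 i.2⟩ rfl)
  rwa [hpoly] at key

end Pool.Newt5.HI
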