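import Pool.Agent.H39.Newt5.Stmts

/-! # NEWTON5, module KPT: the local statement at a point `p` (the proof of helper11) -/

set_option autoImplicit false

namespace Pool.Newt5

open MvPolynomial Pool.Agent.H39.MonoR Pool.Agent.H75.Mono Pool.Newt Pool.Newt2 Pool.Newt3
open Pool.Newt4 (Nfc)

namespace KPT

section Gen

variable {σ I : Type} [Fintype σ] [Fintype I]

/-- the `g` all of whose multiples have polynomial sums -/
noncomputable def polI (a : I → σ → ℕ) (X : ℂ) (φ : Co σ I → ℤ → ℂ) : Ideal (GR I) where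
  carrier := {g | ∀ g' : GR I, Pol (Lc a X φ (g * g'))}
  zero_mem' := fun g' => by rw [zero_mul, map_zero]; exact Pol.zero
  add_mem' := fun {g1 g2} h1 h2 g' => by rw [add_mul, map_add]; exact (h1 g').add (h2 g')
  smul_mem' := fun c g h g' => by
    rw [smul_eq_mul, mul_comm c g, mul_assoc]; exact h (c * g')

theorem mem_polI {a : I → σ → ℕ} {X : ℂ} {φ : Co σ I → ℤ → ℂ} {g : GR I} :
    g ∈ polI a X φ ↔ ∀ g' : GR I, Pol (Lc a X φ (g * g')) := Iff.rfl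

theorem lfC_single [DecidableEq I] (i : I) : lfC (Pi.single i (1 : ℤ)) = X i := by
  unfold lfC
  rw [Finset.sum_eq_single i]
  · rw [Pi.single_eq_same, Int.cast_one, C_1, one_mul]
  · intro j _ hj
    rw [Pi.single_eq_of_ne hj, Int.cast_zero, C_0, zero_mul]
  · exact fun h => absurd (Finset.mem_univ i) h

theorem lfC_neg (β : I → ℤ) : lfC (fun i => -β i) = -lfC β := by
  unfold lfC
  rw [← Finset.sum_neg_distrib]
  refine Finset.sum_congr rfl fun i _ => ?_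
  rw [Int.cast_neg, C_neg, neg_mul]

open Classical in
/-- the vectors of the linear forms -/
noncomputable def bt (a : I → σ → ℕ) : I ⊕ σ → I → ℤ
  | Sum.inl i => Pi.single i 1
  | Sum.inr l => fun i => -(a i l : ℤ)

open Classical in
theorem prod_lf (a : I → σ → ℕ) (Q : Finset I) (L : Finset σ) :
    ∏ d ∈ Q.disjSum L, lfC (bt a d) =
      (∏ i ∈ Q, X i : MvPolynomial I ℂ) * ((-1) ^ L.card * ∏ l ∈ L, lfC (fun i => (a i l : ℤ))) := by
  rw [Finset.prod_disjSum]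
  congr 1
  · exact Finset.prod_congr rfl fun i _ => lfC_single i
  · have h : ∀ l ∈ L, (lfC (bt a (Sum.inr l)) : MvPolynomial I ℂ) = -lfC (fun i => (a i l : ℤ)) :=
      fun l _ => lfC_neg (fun i => (a i l : ℤ))
    rw [Finset.prod_congr rfl h, Finset.prod_neg]

open Classical in
theorem prod_tw (a : I → σ → ℕ) (p : I → ℂˣ) (Q : Finset I) (L : Finset σ) (X : ℂ)
    (hL : ∀ l ∈ L, ((pw p fun i => (a i l : ℤ) : ℂˣ) : ℂ) = X) :
    tw p (∏ d ∈ Q.disjSum L, (1 - AddMonoidAlgebra.single (bt a d) 1)) =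
      (∏ l ∈ L, (1 - AddMonoidAlgebra.single (fun i => -(a i l : ℤ)) X)) *
        (∏ i ∈ Q, (1 - AddMonoidAlgebra.single (Pi.single i 1) ((p i : ℂ)⁻¹))) := by
  rw [map_prod, Finset.prod_disjSum, mul_comm]
  congr 1
  · refine Finset.prod_congr rfl fun l hl => ?_
    rw [map_sub, map_one, tw_single]
    have e : -(bt a (Sum.inr l)) = fun i => (a i l : ℤ) := by
      funext i
      show -(-(a i l : ℤ)) = _
      rw [neg_neg]
    rw [e, hL l hl, one_mul]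
    rfl
  · refine Finset.prod_congr rfl fun i _ => ?_
    rw [map_sub, map_one, tw_single]
    show 1 - AddMonoidAlgebra.single (Pi.single i 1) (1 * ((pw p (-(Pi.single i 1)) : ℂˣ) : ℂ)) = _
    rw [pw_neg, pw_single, zpow_one, one_mul, Units.val_inv_eq_inv_val]

end Gen

section Pt

variable {σ I : Type} [Fintype σ] [Fintype I] {x : ℝ} {p : I → ℂˣ} {t0 : I → ℝ}

omit [Fintype σ] in
theorem pt_sum (ht : ∀ i, t0 i = Real.log ‖(p i : ℂ)‖ / Real.log x) (m : I → ℤ) :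
    ∑ i, (m i : ℝ) * t0 i = Real.log ‖((pw p m : ℂˣ) : ℂ)‖ / Real.log x := by
  rw [log_pw, Finset.sum_div]
  refine Finset.sum_congr rfl fun i _ => ?_
  rw [ht i, mul_div_assoc]

theorem pt_one (ht : ∀ i, t0 i = Real.log ‖(p i : ℂ)‖ / Real.log x) {i : I} (h : p i = 1) :
    t0 i = 0 := by
  rw [ht i, h, Units.val_one, norm_one, Real.log_one, zero_div]

theorem pt_inv (hx : 1 < x) (ht : ∀ i, t0 i = Real.log ‖(p i : ℂ)‖ / Real.log x) {i : I}
    (h : (p i : ℂ) = (x : ℂ)⁻¹) : t0 i = -1 := by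
  have hl : Real.log x ≠ 0 := (Real.log_pos hx).ne'
  rw [ht i, h, norm_inv, Complex.norm_real, Real.norm_eq_abs, abs_of_pos (zero_lt_one.trans hx),
    Real.log_inv, neg_div, div_self hl]

/-- every variable in `Wf` occurs in an exponent outside `Z ∪ E` -/
theorem bdd (a : I → σ → ℕ) (P Z E : Finset I) (hP : ∀ i l, ¬ Val a P i l)
    (hZ : ∀ i ∈ Z, p i = 1) (hZP : Disjoint Z P) (hZ0 : ∀ i ∈ Z, t0 i = 0)
    (hE : ∀ i ∈ E, t0 i ≤ -1) (hEU : ∀ i ∈ E, i ∉ P → (p i : ℂ) ≠ (x : ℂ)⁻¹) (l : σ)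
    (hl : ((pw p fun i => (a i l : ℤ) : ℂˣ) : ℂ) = (x : ℂ)⁻¹)
    (hs : ∑ i, (a i l : ℝ) * t0 i = -1) : ∃ i, i ∉ Z ∧ i ∉ E ∧ a i l ≠ 0 := by
  classical
  by_contra hcon
  push Not at hcon
  -- all terms are nonpositive
  have hnp : ∀ i, (a i l : ℝ) * t0 i ≤ 0 := by
    intro i
    by_cases hi : a i l = 0
    · rw [hi, Nat.cast_zero, zero_mul]
    · by_cases hz : i ∈ Z
      · rw [hZ0 i hz, mul_zero]
      · by_cases he : i ∈ E
        · have := hE i he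
          have h2 : (0 : ℝ) ≤ a i l := Nat.cast_nonneg _
          nlinarith
        · exact absurd (hcon i hz he) hi
  obtain ⟨i0, hi0⟩ : ∃ i, (a i l : ℝ) * t0 i ≠ 0 := by
    by_contra h
    push Not at h
    rw [Finset.sum_eq_zero fun i _ => h i] at hs
    norm_num at hs
  have ha0 : a i0 l ≠ 0 := fun h => hi0 (by rw [h, Nat.cast_zero, zero_mul])
  have ht0 : t0 i0 ≠ 0 := fun h => hi0 (by rw [h, mul_zero])
  have hi0Z : i0 ∉ Z := fun h => ht0 (hZ0 i0 h)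
  have hi0E : i0 ∈ E := by
    by_contra h
    exact ha0 (hcon i0 hi0Z h)
  have ha1 : (1 : ℝ) ≤ a i0 l := by exact_mod_cast Nat.one_le_iff_ne_zero.2 ha0
  have ht1 := hE i0 hi0E
  rw [← Finset.add_sum_erase _ _ (Finset.mem_univ i0)] at hs
  have hrest : ∑ i ∈ Finset.univ.erase i0, (a i l : ℝ) * t0 i ≤ 0 :=
    Finset.sum_nonpos fun i _ => hnp i
  have hle : (a i0 l : ℝ) * t0 i0 ≤ -1 := by nlinarith
  have hr0 : ∑ i ∈ Finset.univ.erase i0, (a i l : ℝ) * t0 i = 0 := by linarith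
  have hr1 : ∀ i, i ≠ i0 → (a i l : ℝ) * t0 i = 0 := fun i hi =>
    (Finset.sum_eq_zero_iff_of_nonpos (fun i _ => hnp i)).1 hr0 i
      (Finset.mem_erase.2 ⟨hi, Finset.mem_univ i⟩)
  have hm : (a i0 l : ℝ) * t0 i0 = -1 := by linarith
  have ha2 : a i0 l = 1 := by
    have : (a i0 l : ℝ) ≤ 1 := by nlinarith
    have h3 : a i0 l ≤ 1 := by exact_mod_cast this
    omega
  have hoth : ∀ i, i ≠ i0 → a i l ≠ 0 → i ∈ Z := by
    intro i hi hi2
    by_contra hz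
    have he : i ∈ E := by
      by_contra h
      exact hi2 (hcon i hz h)
    have h4 := hr1 i hi
    have h5 := hE i he
    rcases mul_eq_zero.1 h4 with h | h
    · exact hi2 (by exact_mod_cast h)
    · linarith
  -- the value at `p`
  have hv : (p i0 : ℂ) = (x : ℂ)⁻¹ := by
    rw [← hl]
    unfold pw
    rw [Finset.prod_eq_single i0]
    · show (p i0 : ℂ) = ((p i0 ^ (a i0 l : ℤ) : ℂˣ) : ℂ)
      rw [ha2, Nat.cast_one, zpow_one]
    · intro i _ hi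
      show p i ^ (a i l : ℤ) = 1
      by_cases h : a i l = 0
      · rw [h, Nat.cast_zero, zpow_zero]
      · rw [hZ i (hoth i hi h), one_zpow]
    · exact fun h => absurd (Finset.mem_univ i0) h
  by_cases hi0P : i0 ∈ P
  · refine hP i0 l ⟨hi0P, ha2, fun i hi hne => ?_⟩
    by_contra h
    exact Finset.disjoint_left.1 hZP (hoth i hne h) hi
  · exact hEU i0 hi0E hi0P hv

end Pt

open Classical in
theorem main {σ I : Type} [Fintype σ] [Fintype I] [Nonempty I] (hTRF : STrf) (hKPA : SKpa)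
    (hKPB : SKpb) (hKLD : SKld) (hKLK : SKlk) (hKLS : Pool.Newt4.SKls) (a : I → σ → ℕ) (α : ℚ)
    (hL : Lcl a α) (hS : Simp a α) (P : Finset I) (hP : ∀ i l, ¬ Val a P i l) (x : ℝ) (hx : 1 < x)
    (p : I → ℂˣ) (hp : ‖((pw p fun _ => 1 : ℂˣ) : ℂ)‖ = x ^ (α : ℝ)) :
    ∃ h : GR I, evp p h ≠ 0 ∧
      ∀ g : GR I, Pol (Lc a ((x : ℂ)⁻¹) (phz P) (g * (h * yy ((x : ℂ)⁻¹) P))) := by
  have hx0 : 0 < x := zero_lt_one.trans hx
  have hlx : 0 < Real.log x := Real.log_pos hx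
  have hX0 : ((x : ℂ)⁻¹) ≠ 0 := inv_ne_zero (Complex.ofReal_ne_zero.2 hx0.ne')
  set t0 : I → ℝ := fun i => Real.log ‖(p i : ℂ)‖ / Real.log x with ht0
  have ht : ∀ i, t0 i = Real.log ‖(p i : ℂ)‖ / Real.log x := fun i => rfl
  have hsum : ∑ i, t0 i = α := by
    have h1 := pt_sum ht (fun _ => 1)
    rw [hp, Real.log_rpow hx0, mul_div_assoc, div_self hlx.ne', mul_one] at h1
    rw [← h1]
    exact Finset.sum_congr rfl fun i _ => by rw [Int.cast_one, one_mul]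
  set Wf : Finset σ := Finset.univ.filter
    (fun l => ((pw p fun i => (a i l : ℤ) : ℂˣ) : ℂ) = (x : ℂ)⁻¹) with hWfd
  have hWf : ∀ l ∈ Wf, ((pw p fun i => (a i l : ℤ) : ℂˣ) : ℂ) = (x : ℂ)⁻¹ := fun l hl =>
    (Finset.mem_filter.1 hl).2
  have hWs : ∀ l ∈ Wf, ∑ i, (a i l : ℝ) * t0 i = -1 := by
    intro l hl
    have h1 := pt_sum ht (fun i => (a i l : ℤ))
    rw [hWf l hl, norm_inv, Complex.norm_real, Real.norm_eq_abs, abs_of_pos hx0, Real.log_inv,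
      neg_div, div_self hlx.ne'] at h1
    rw [← h1]
    exact Finset.sum_congr rfl fun i _ => by rw [Int.cast_natCast]
  set Z : Finset I := Finset.univ.filter (fun i => i ∉ P ∧ p i = 1) with hZd
  set U : Finset I := Finset.univ.filter (fun i => i ∉ P ∧ (p i : ℂ) = (x : ℂ)⁻¹) with hUd
  set E : Finset I := Zr t0 0 \ U with hEd
  have hZ1 : ∀ i ∈ Z, p i = 1 := fun i hi => (Finset.mem_filter.1 hi).2.2
  have hZP : Disjoint Z P := Finset.disjoint_left.2 fun i hi => (Finset.mem_filter.1 hi).2.1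
  have hZ0 : ∀ i ∈ Z, t0 i = 0 := fun i hi => pt_one ht (hZ1 i hi)
  have hZr0 : ∀ i ∈ Zr t0 0, ∃ m : ℤ, t0 i = -m ∧ 0 < m := fun i hi => by
    obtain ⟨m, h1, h2⟩ := mem_Zr.1 hi
    exact ⟨m, h1, h2⟩
  have hEm : ∀ i ∈ E, ∃ m : ℤ, t0 i = -m ∧ 0 < m := fun i hi =>
    hZr0 i (Finset.mem_sdiff.1 hi).1
  have hE1 : ∀ i ∈ E, t0 i ≤ -1 := by
    intro i hi
    obtain ⟨m, h1, h2⟩ := hEm i hi
    have h3 : (1 : ℝ) ≤ (m : ℝ) := by exact_mod_cast h2
    rw [h1]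
    linarith
  have hZE : Disjoint Z E := by
    refine Finset.disjoint_left.2 fun i hi hi' => ?_
    have h1 := hZ0 i hi
    have h2 := hE1 i hi'
    linarith
  have hEU : ∀ i ∈ E, i ∉ P → (p i : ℂ) ≠ (x : ℂ)⁻¹ := fun i hi hiP h =>
    (Finset.mem_sdiff.1 hi).2 (Finset.mem_filter.2 ⟨Finset.mem_univ i, hiP, h⟩)
  have hUZ : U ⊆ Zr t0 0 := by
    intro i hi
    have h1 := pt_inv hx ht (Finset.mem_filter.1 hi).2.2
    exact mem_Zr.2 ⟨1, by rw [h1, Int.cast_one], by simp⟩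
  have hbdd : ∀ l ∈ Wf, ∃ i, i ∉ Z ∧ i ∉ E ∧ a i l ≠ 0 := fun l hl =>
    bdd a P Z E hP hZ1 hZP hZ0 hE1 hEU l (hWf l hl) (hWs l hl)
  -- membership in `Z ∪ E`
  have hint : ∀ i, i ∉ (Z ∪ E)ᶜ → ∃ m : ℕ, t0 i = -m := by
    intro i hi
    rw [Finset.mem_compl, not_not, Finset.mem_union] at hi
    rcases hi with hi | hi
    · exact ⟨0, by rw [hZ0 i hi, Nat.cast_zero, neg_zero]⟩
    · obtain ⟨m, h1, h2⟩ := hEm i hi
      obtain ⟨n, rfl⟩ := Int.eq_ofNat_of_zero_le h2.le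
      exact ⟨n, by rw [h1]; simp⟩
  -- the sets
  set G : Set (Finset (I ⊕ σ)) := {S | ∃ (Q : Finset I) (L : Finset σ), L ⊆ Wf ∧
    Emp a (Wf \ L) (Q ∪ (Z ∪ E)ᶜ) ∧ S = Q.disjSum L} with hG
  have hge : ∀ (δ : I → ℤ) i, i ∉ Zr t0 δ ∪ (Z ∪ E)ᶜ → ∃ m : ℤ, t0 i = -m ∧ 0 ≤ m ∧ m ≤ δ i := by
    intro δ i hi
    rw [Finset.mem_union, not_or] at hi
    obtain ⟨m, hm⟩ := hint i hi.2
    refine ⟨m, by rw [hm]; simp, by positivity, ?_⟩
    by_contra hlt
    exact hi.1 (mem_Zr.2 ⟨m, by rw [hm]; simp, lt_of_not_ge hlt⟩)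
  have hmem : (∏ d ∈ (Zr t0 0).disjSum (∅ : Finset σ), lfC (bt a d) : MvPolynomial I ℂ) ∈
      Ideal.span {g | ∃ S ∈ G, g = ∏ d ∈ S, lfC (bt a d)} := by
    rw [prod_lf, Finset.card_empty, pow_zero, Finset.prod_empty, mul_one, mul_one]
    have h1 := hL t0 hsum Wf hWs ((Z ∪ E)ᶜ) hint
    refine Ideal.span_le.2 ?_ h1
    have key : ∀ (Q : Finset I) (L : Finset σ), L ⊆ Wf → Emp a (Wf \ L) (Q ∪ (Z ∪ E)ᶜ) →
        (∏ i ∈ Q, X i : MvPolynomial I ℂ) * ∏ l ∈ L, lfC (fun i => (a i l : ℤ)) ∈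
          Ideal.span {g : MvPolynomial I ℂ | ∃ S ∈ G, g = ∏ d ∈ S, lfC (bt a d)} := by
      intro Q L hLW hemp
      have h2 : (∏ d ∈ Q.disjSum L, lfC (bt a d) : MvPolynomial I ℂ) ∈
          Ideal.span {g | ∃ S ∈ G, g = ∏ d ∈ S, lfC (bt a d)} :=
        Ideal.subset_span ⟨_, ⟨Q, L, hLW, hemp, rfl⟩, rfl⟩
      have h3 := Ideal.mul_mem_left _ ((-1 : MvPolynomial I ℂ) ^ L.card) h2
      rw [prod_lf] at h3
      have h4 : ((-1 : MvPolynomial I ℂ) ^ L.card) * ((∏ i ∈ Q, X i) *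
          ((-1) ^ L.card * ∏ l ∈ L, lfC (fun i => (a i l : ℤ)))) =
          (∏ i ∈ Q, X i) * ∏ l ∈ L, lfC (fun i => (a i l : ℤ)) := by
        have h5 : ((-1 : MvPolynomial I ℂ) ^ L.card) * (-1) ^ L.card = 1 := by
          rw [← mul_pow, neg_one_mul, neg_neg, one_pow]
        calc _ = (((-1 : MvPolynomial I ℂ) ^ L.card) * (-1) ^ L.card) * ((∏ i ∈ Q, X i) *
            ∏ l ∈ L, lfC (fun i => (a i l : ℤ))) := by ring
          _ = _ := by rw [h5, one_mul]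
      rwa [h4] at h3
    rintro g ((⟨κ, hκ, hκ0, rfl⟩ | ⟨δ, δ', hδ, hδδ', rfl⟩) | ⟨S, hS', rfl⟩)
    · have h2 := key (Zr t0 κ) ∅ (Finset.empty_subset _) (by
        rw [Finset.sdiff_empty]
        refine hKLK σ I a α hS Wf _ t0 hsum hWs κ hκ hκ0 (fun i hi => ?_) (fun i hi hne => ?_)
        · obtain ⟨m, _, h3, h4⟩ := hge κ i hi
          exact h3.trans h4
        · obtain ⟨m, h2, h3, h4⟩ := hge κ i hi
          refine lt_of_lt_of_le (lt_of_le_of_ne h3 ?_) h4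
          rintro rfl
          exact hne (by rw [h2]; simp))
      rwa [Finset.prod_empty, mul_one] at h2
    · refine key (Zr t0 δ) _ (Finset.filter_subset _ _) ?_
      refine hKLD σ I a _ _ δ' hδ (fun l hl => ?_) (fun i hi => ?_)
      · obtain ⟨hl1, hl2⟩ := Finset.mem_sdiff.1 hl
        exact not_lt.1 fun h0 => hl2 (Finset.mem_filter.2 ⟨hl1, h0⟩)
      · obtain ⟨m, _, h3, h4⟩ := hge δ i hi
        exact hδδ' i (h3.trans h4)
    · have h2 := key S ∅ (Finset.empty_subset _) (by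
        rw [Finset.sdiff_empty]
        refine hKLS σ I a α Wf S ((Z ∪ E)ᶜ) _ t0 hsum hWs (fun i hi => ?_) hS' (fun i hi => ?_)
        · obtain ⟨m, hm⟩ := hint i hi
          rw [hm]
          simp
        · rwa [Finset.mem_union])
      rwa [Finset.prod_empty, mul_one] at h2
  obtain ⟨h, hh0, hh1⟩ := hTRF I (I ⊕ σ) (bt a) G _ hmem
  -- twist
  have htw : tw p (h * ∏ d ∈ (Zr t0 0).disjSum (∅ : Finset σ),
      (1 - AddMonoidAlgebra.single (bt a d) 1)) ∈ polI a ((x : ℂ)⁻¹) (phe p Wf Z E) := by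
    have h1 : Ideal.span {g : GR I | ∃ S ∈ G, g = ∏ d ∈ S,
        (1 - AddMonoidAlgebra.single (bt a d) 1)} ≤
        (polI a ((x : ℂ)⁻¹) (phe p Wf Z E)).comap (tw p) := by
      refine Ideal.span_le.2 ?_
      rintro g ⟨S, ⟨Q, L, hLW, hemp, rfl⟩, rfl⟩
      show tw p _ ∈ polI a ((x : ℂ)⁻¹) (phe p Wf Z E)
      rw [prod_tw a p Q L ((x : ℂ)⁻¹) (fun l hl => hWf l (hLW hl))]
      exact fun g' => hKPB σ I a x hx p Wf Z E hZE hZ1 hbdd L Q hLW hemp g'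
    exact h1 hh1
  rw [map_mul, prod_tw a p _ _ ((x : ℂ)⁻¹) (fun l hl => absurd hl (Finset.notMem_empty l)),
    Finset.prod_empty, one_mul] at htw
  refine ⟨tw p h * ((∏ l ∈ Wfᶜ, (1 - AddMonoidAlgebra.single (fun i => -(a i l : ℤ)) ((x : ℂ)⁻¹))) *
    (∏ i ∈ (P ∪ Z)ᶜ, (1 - AddMonoidAlgebra.single (Pi.single i 1) 1))), ?_, ?_⟩
  · rw [map_mul, map_mul, evp_tw, map_prod, map_prod]
    refine mul_ne_zero hh0 (mul_ne_zero (Finset.prod_ne_zero_iff.2 fun l hl => ?_)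
      (Finset.prod_ne_zero_iff.2 fun i hi => ?_))
    · rw [map_sub, map_one, evp_single]
      have e : (fun i => -(a i l : ℤ)) = -(fun i => (a i l : ℤ)) := rfl
      rw [e, pw_neg, Units.val_inv_eq_inv_val]
      intro h0
      rw [sub_eq_zero] at h0
      have h1 : ((pw p fun i => (a i l : ℤ) : ℂˣ) : ℂ) ≠ 0 := Units.ne_zero _
      have h2 : ((pw p fun i => (a i l : ℤ) : ℂˣ) : ℂ) = (x : ℂ)⁻¹ := by
        have h3 : 1 * ((pw p fun i => (a i l : ℤ) : ℂˣ) : ℂ) =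
            ((x : ℂ)⁻¹ * (((pw p fun i => (a i l : ℤ) : ℂˣ) : ℂ))⁻¹) *
              ((pw p fun i => (a i l : ℤ) : ℂˣ) : ℂ) := by rw [← h0]
        rwa [one_mul, mul_assoc, inv_mul_cancel₀ h1, mul_one] at h3
      exact (Finset.mem_compl.1 hl) (Finset.mem_filter.2 ⟨Finset.mem_univ l, h2⟩)
    · rw [map_sub, map_one, evp_single, pw_single, zpow_one, one_mul]
      intro h0
      rw [sub_eq_zero] at h0
      rw [Finset.mem_compl, Finset.mem_union, not_or] at hi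
      refine hi.2 (Finset.mem_filter.2 ⟨Finset.mem_univ i, hi.1, ?_⟩)
      exact Units.ext (by rw [Units.val_one]; exact h0.symm)
  · intro g
    -- the factors of `yy` in `U`
    have hyy : yy ((x : ℂ)⁻¹) P = (∏ i ∈ U, (AddMonoidAlgebra.single (0 : I → ℤ) (-((x : ℂ)⁻¹)) *
        (1 - AddMonoidAlgebra.single (Pi.single i 1) ((p i : ℂ)⁻¹)))) *
        ∏ i ∈ Pᶜ \ U, (AddMonoidAlgebra.single (Pi.single i 1) 1 -
          AddMonoidAlgebra.single 0 ((x : ℂ)⁻¹)) := by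
      unfold yy
      have hUP : U ⊆ Pᶜ := fun i hi => Finset.mem_compl.2 (Finset.mem_filter.1 hi).2.1
      rw [← Finset.prod_sdiff hUP, mul_comm]
      congr 1
      refine Finset.prod_congr rfl fun i hi => ?_
      rw [mul_sub, mul_one, AddMonoidAlgebra.single_mul_single, zero_add,
        (Finset.mem_filter.1 hi).2.2, neg_mul, mul_inv_cancel₀ hX0,
        AddMonoidAlgebra.single_neg, AddMonoidAlgebra.single_neg]
      ring
    have hPm : (∏ i ∈ E, (1 - AddMonoidAlgebra.single (Pi.single i 1) ((p i : ℂ)⁻¹)) : GR I) *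
        (∏ i ∈ U, (1 - AddMonoidAlgebra.single (Pi.single i 1) ((p i : ℂ)⁻¹))) =
        ∏ i ∈ Zr t0 0, (1 - AddMonoidAlgebra.single (Pi.single i 1) ((p i : ℂ)⁻¹)) :=
      Finset.prod_sdiff hUZ
    have e1 : g * (tw p h * ((∏ l ∈ Wfᶜ, (1 - AddMonoidAlgebra.single (fun i => -(a i l : ℤ))
        ((x : ℂ)⁻¹))) * (∏ i ∈ (P ∪ Z)ᶜ, (1 - AddMonoidAlgebra.single (Pi.single i 1) 1))) *
        yy ((x : ℂ)⁻¹) P) =
        (∏ l ∈ Wfᶜ, (1 - AddMonoidAlgebra.single (fun i => -(a i l : ℤ)) ((x : ℂ)⁻¹))) *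
        (∏ i ∈ (P ∪ Z)ᶜ, (1 - AddMonoidAlgebra.single (Pi.single i 1) 1)) *
        (g * tw p h * yy ((x : ℂ)⁻¹) P) := by ring
    rw [e1, hKPA σ I a P x hx p Wf Z E hZP hZE hWf hbdd, hyy, Finset.prod_mul_distrib]
    have e2 : (∏ i ∈ E, (1 - AddMonoidAlgebra.single (Pi.single i 1) ((p i : ℂ)⁻¹)) : GR I) *
        (g * tw p h * ((∏ i ∈ U, AddMonoidAlgebra.single (0 : I → ℤ) (-((x : ℂ)⁻¹))) *
          (∏ i ∈ U, (1 - AddMonoidAlgebra.single (Pi.single i 1) ((p i : ℂ)⁻¹))) *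
          ∏ i ∈ Pᶜ \ U, (AddMonoidAlgebra.single (Pi.single i 1) 1 -
          AddMonoidAlgebra.single 0 ((x : ℂ)⁻¹)))) =
        (tw p h * ((∏ i ∈ E, (1 - AddMonoidAlgebra.single (Pi.single i 1) ((p i : ℂ)⁻¹)) : GR I) *
        (∏ i ∈ U, (1 - AddMonoidAlgebra.single (Pi.single i 1) ((p i : ℂ)⁻¹))))) *
        (g * (∏ i ∈ U, AddMonoidAlgebra.single (0 : I → ℤ) (-((x : ℂ)⁻¹))) *
          ∏ i ∈ Pᶜ \ U, (AddMonoidAlgebra.single (Pi.single i 1) 1 -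
          AddMonoidAlgebra.single 0 ((x : ℂ)⁻¹))) := by ring
    rw [e2, hPm]
    exact htw _

end KPT

theorem sKpt (hTRF : STrf) (hKPA : SKpa) (hKPB : SKpb) (hKLD : SKld) (hKLK : SKlk)
    (hKLS : Pool.Newt4.SKls) : SKpt := by
  classical
  intro σ I _ _ _ a α hL hS P hP x hx p hp
  exact KPT.main hTRF hKPA hKPB hKLD hKLK hKLS a α hL hS P hP x hx p hp

end Pool.Newt5

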