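import Pool.Agent.H39.Newt5.Stmts
import Pool.Agent.H99.Newt3.LCR

/-! # Project NEWTON5, module LCZ: the local form of the functional equation for arbitrary coefficients -/

set_option autoImplicit false

namespace Pool.Newt5

open MvPolynomial Pool.Agent.H39.MonoR Pool.Agent.H75.Mono Pool.Newt Pool.Newt2 Pool.Newt3
open Pool.Newt4 (Nfc ifac)

namespace LCZ

/-- one factor of `Pg` at an integer -/
theorem fac1 (d : ℤ) (J : ℕ) (s : ℤ) (hd : d ≤ J) (hs : 0 ≤ s + J) :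
    ∏ j ∈ Finset.Ioc d (J : ℤ), ((s : ℚ) + (j : ℚ)) =
      (((s + J).toNat.factorial : ℕ) : ℚ) *
        (if 0 ≤ s + d then ((((s + d).toNat.factorial : ℕ) : ℚ))⁻¹ else 0) := by
  split_ifs with h
  · -- induction on `J - d`
    obtain ⟨m, hm⟩ : ∃ m : ℕ, (J : ℤ) = d + m := ⟨(J - d).toNat, by omega⟩
    rw [hm]
    clear hm hs hd
    induction m with
    | zero =>
      simp only [Nat.cast_zero, add_zero, Finset.Ioc_self, Finset.prod_empty]
      rw [mul_inv_cancel₀]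
      exact_mod_cast Nat.factorial_ne_zero _
    | succ m ih =>
      have e1 : Finset.Ioc d (d + ((m + 1 : ℕ) : ℤ)) =
          insert (d + ((m + 1 : ℕ) : ℤ)) (Finset.Ioc d (d + (m : ℤ))) := by
        ext x
        simp only [Finset.mem_insert, Finset.mem_Ioc]
        push_cast
        omega
      rw [e1, Finset.prod_insert (by simp), ih]
      have e2 : (s + (d + ((m + 1 : ℕ) : ℤ))).toNat = (s + (d + (m : ℤ))).toNat + 1 := by
        push_cast
        omega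
      rw [e2, Nat.factorial_succ, Nat.cast_mul]
      have e3 : (((s + (d + (m : ℤ))).toNat + 1 : ℕ) : ℚ) = (s : ℚ) + ((d + ((m + 1 : ℕ) : ℤ) : ℤ) : ℚ) := by
        have e4 : ((((s + (d + (m : ℤ))).toNat + 1 : ℕ) : ℤ)) = s + (d + ((m + 1 : ℕ) : ℤ)) := by
          push_cast
          omega
        have := congrArg (fun z : ℤ => (z : ℚ)) e4
        push_cast at this ⊢
        exact this
      rw [e3]
      ring
  · rw [mul_zero]
    refine Finset.prod_eq_zero (i := -s) ?_ (by push_cast; ring)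
    rw [Finset.mem_Ioc]
    omega

theorem pgI {I : Type} [Fintype I] (J : ℕ) (δ tt : I → ℤ) (hδ : ∀ i, δ i ≤ J)
    (ht : ∀ i, 0 ≤ tt i + J) : eval (fun i => (tt i : ℚ)) (Pg J δ) =
      (∏ i, (((tt i + J).toNat.factorial : ℕ) : ℚ)) * ifac (fun i => tt i + δ i) := by
  classical
  unfold Pg
  rw [map_prod]
  have h1 : ∀ i, eval (fun i => (tt i : ℚ)) (∏ j ∈ Finset.Ioc (δ i) (J : ℤ), (X i + C (j : ℚ))) =
      (((tt i + J).toNat.factorial : ℕ) : ℚ) *
        (if 0 ≤ tt i + δ i then ((((tt i + δ i).toNat.factorial : ℕ) : ℚ))⁻¹ else 0) := by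
    intro i
    rw [map_prod, ← fac1 (δ i) J (tt i) (hδ i) (ht i)]
    refine Finset.prod_congr rfl fun j _ => ?_
    rw [map_add, eval_X, eval_C]
  simp_rw [h1]
  rw [Finset.prod_mul_distrib]
  congr 1
  unfold ifac
  split_ifs with h
  · rw [← Finset.prod_inv_distrib]
    exact Finset.prod_congr rfl fun i _ => if_pos (h i)
  · push Not at h
    obtain ⟨i, hi⟩ := h
    exact Finset.prod_eq_zero (Finset.mem_univ i) (if_neg (by omega))


section L

variable {σ I : Type} [Fintype σ] [Fintype I] {k : Type} [Field k] [Algebra k ℂ]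

/-- the numerator of the second part -/
noncomputable def QQd (a : I → σ → ℕ) (r : (σ → ℤ) → MvPolynomial (Option σ) k) (δ : I → ℤ) :
    MvPolynomial I ℂ :=
  aeval (fun o => Option.elim o (∑ i, X i : MvPolynomial I ℂ)
    (fun l => ∑ i, (X i + C ((δ i : ℤ) : ℂ)) * C ((a i l : ℕ) : ℂ)))
    (map (algebraMap k ℂ) (r (fun l => -∑ i, δ i * (a i l : ℤ))))

/-- the polynomial of the recurrence -/
noncomputable def LL (a : I → σ → ℕ) (c : I → k) (b : Polynomial k)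
    (r : (σ → ℤ) → MvPolynomial (Option σ) k) (J : ℕ) (Dd : Finset (I → ℤ)) : MvPolynomial I ℂ :=
  Polynomial.aeval (∑ i, X i : MvPolynomial I ℂ) (b.map (algebraMap k ℂ)) *
      map (algebraMap ℚ ℂ) (Pg J 0) -
    ((∑ i, X i) + 1) * ∑ δ ∈ Dd, C (algebraMap k ℂ (∏ i, c i ^ δ i)) *
      (map (algebraMap ℚ ℂ) (Pg J δ) * map (algebraMap ℚ ℂ) (dd a δ) * QQd a r δ)

omit [Fintype I] in
theorem eval_mapQ (p : MvPolynomial I ℚ) (z : I → ℂ) (tt : I → ℤ) (hz : ∀ i, z i = (tt i : ℂ)) :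
    eval z (map (algebraMap ℚ ℂ) p) = ((eval (fun i => (tt i : ℚ)) p : ℚ) : ℂ) := by
  have e : z = algebraMap ℚ ℂ ∘ (fun i => (tt i : ℚ)) := by
    funext i
    rw [hz i]
    simp
  rw [e, eval_map, ← eval₂_comp]
  rfl

theorem eval_QQd (a : I → σ → ℕ) (r : (σ → ℤ) → MvPolynomial (Option σ) k) (δ : I → ℤ)
    (z : I → ℂ) (tt : I → ℤ) (hz : ∀ i, z i = (tt i : ℂ)) (n : ℕ) (hn : ∑ i, tt i = n) :
    eval z (QQd a r δ) = algebraMap k ℂ
      (eval (fun o => Option.elim o (n : k) (fun l => ∑ i, ((tt i : k) + (δ i : k)) * (a i l : k)))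
        (r (fun l => -∑ i, δ i * (a i l : ℤ)))) := by
  unfold QQd
  have h1 : ∀ q : MvPolynomial (Option σ) ℂ, eval z (aeval (fun o => Option.elim o
      (∑ i, X i : MvPolynomial I ℂ) (fun l => ∑ i, (X i + C ((δ i : ℤ) : ℂ)) * C ((a i l : ℕ) : ℂ))) q) =
      eval (fun o => Option.elim o (n : ℂ) (fun l => ∑ i, ((tt i : ℂ) + (δ i : ℂ)) * (a i l : ℂ))) q := by
    intro q
    have e1 : (eval z).comp (aeval (fun o => Option.elim o
      (∑ i, X i : MvPolynomial I ℂ) (fun l => ∑ i, (X i + C ((δ i : ℤ) : ℂ)) * C ((a i l : ℕ) : ℂ)))).toRingHom =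
      eval (fun o => Option.elim o (n : ℂ) (fun l => ∑ i, ((tt i : ℂ) + (δ i : ℂ)) * (a i l : ℂ))) := by
      apply MvPolynomial.ringHom_ext
      · intro c
        simp
      · intro o
        rcases o with _ | l
        · have e2 : ((∑ i, tt i : ℤ) : ℂ) = n := by rw [hn]; simp
          push_cast at e2
          simp [hz, e2]
        · simp [hz]
    exact RingHom.congr_fun e1 q
  rw [h1, eval_map, eval₂_comp]
  have e3 : (fun o => Option.elim o (n : ℂ) (fun l => ∑ i, ((tt i : ℂ) + (δ i : ℂ)) * (a i l : ℂ))) =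
      algebraMap k ℂ ∘ (fun o => Option.elim o (n : k)
        (fun l => ∑ i, ((tt i : k) + (δ i : k)) * (a i l : k))) := by
    funext o
    rcases o with _ | l
    · simp
    · simp
  rw [e3]

/-- the value at an integral point -/
theorem eval_LL [CharZero k] (a : I → σ → ℕ) (c : I → k) (hc : ∀ i, c i ≠ 0) (b : Polynomial k)
    (Γ : Finset (σ → ℤ)) (r : (σ → ℤ) → MvPolynomial (Option σ) k) (hId : CofId a c b Γ r)
    (hLci : Pool.Newt4.SLci) (J : ℕ) (Dd : Finset (I → ℤ)) (z : I → ℂ) (tt : I → ℤ)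
    (hz : ∀ i, z i = (tt i : ℂ)) (n : ℕ) (hn : ∑ i, tt i = n) (hJ : ∀ δ ∈ Dd, ∀ i, δ i ≤ J)
    (htJ : ∀ i, 0 ≤ tt i + J)
    (hDk : ∀ κ ∈ Ker a, (∀ i, 0 ≤ tt i + κ i) → κ = 0)
    (hDd : ∀ δ ∈ Dd, ∑ i, δ i = 1 ∧ (fun l => -∑ i, δ i * (a i l : ℤ)) ∈ Γ)
    (hDd' : ∀ δ : I → ℤ, ∑ i, δ i = 1 → (fun l => -∑ i, δ i * (a i l : ℤ)) ∈ Γ →
      (∀ i, 0 ≤ tt i + δ i) → δ ∈ Dd) : eval z (LL a c b r J Dd) = 0 := by
  classical
  have h1 := hLci σ I k a c hc b Γ r hId tt n hn {0} Dd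
    (fun κ hκ => by rw [Finset.mem_singleton.1 hκ]; exact (Ker a).zero_mem)
    (fun κ hκ h => Finset.mem_singleton.2 (hDk κ hκ h)) hDd hDd'
  rw [Finset.sum_singleton] at h1
  simp only [Pi.zero_apply, zpow_zero, Finset.prod_const_one, one_mul, add_zero] at h1
  unfold LL
  rw [map_sub, map_mul, map_mul, map_sum, eval_mapQ _ z tt hz]
  have hsum : ∑ i, z i = (n : ℂ) := by
    have e2 : ((∑ i, tt i : ℤ) : ℂ) = n := by rw [hn]; simp
    push_cast at e2
    rw [← e2]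
    exact Finset.sum_congr rfl fun i _ => hz i
  have hb : eval z (Polynomial.aeval (∑ i, X i : MvPolynomial I ℂ) (b.map (algebraMap k ℂ))) =
      algebraMap k ℂ (b.eval (n : k)) := by
    have e1 : eval z (Polynomial.aeval (∑ i, X i : MvPolynomial I ℂ) (b.map (algebraMap k ℂ))) =
        (b.map (algebraMap k ℂ)).eval (n : ℂ) := by
      rw [Polynomial.aeval_def, Polynomial.hom_eval₂]
      have e2 : (eval z).comp (algebraMap ℂ (MvPolynomial I ℂ)) = RingHom.id ℂ := by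
        ext x
        simp
      rw [e2, map_sum]
      simp only [eval_X]
      rw [hsum, Polynomial.eval₂_id]
    rw [e1, Polynomial.eval_map, Polynomial.eval₂_at_natCast]
  have h2 : ∀ δ ∈ Dd, eval z (C (algebraMap k ℂ (∏ i, c i ^ δ i)) *
      (map (algebraMap ℚ ℂ) (Pg J δ) * map (algebraMap ℚ ℂ) (dd a δ) * QQd a r δ)) =
      ((∏ i, (((tt i + J).toNat.factorial : ℕ) : ℚ) : ℚ) : ℂ) * algebraMap k ℂ
        ((∏ i, c i ^ δ i) * ((ifac (fun i => tt i + δ i) : ℚ) : k) *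
        (((eval (fun i => (tt i : ℚ)) (dd a δ) : ℚ) : k) *
          eval (fun o => Option.elim o (n : k) (fun l => ∑ i, ((tt i : k) + (δ i : k)) * (a i l : k)))
            (r (fun l => -∑ i, δ i * (a i l : ℤ))))) := by
    intro δ hδ
    rw [map_mul, map_mul, map_mul, eval_C, eval_mapQ _ z tt hz, eval_mapQ _ z tt hz,
      eval_QQd a r δ z tt hz n hn, pgI J δ tt (hJ δ hδ) htJ]
    rw [map_mul, map_mul, map_mul, map_ratCast, map_ratCast, Rat.cast_mul]
    ring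
  rw [Finset.sum_congr rfl h2, ← Finset.mul_sum, ← map_sum, map_add, map_sum, map_one, hb]
  simp only [eval_X]
  rw [hsum, pgI J 0 tt (fun i => by simp) htJ]
  simp only [Pi.zero_apply, add_zero]
  have h3 := congrArg (algebraMap k ℂ) h1
  rw [map_mul, map_mul, map_ratCast, map_add, map_natCast, map_one] at h3
  rw [Rat.cast_mul, sub_eq_zero]
  calc _ = ((∏ i, (((tt i + J).toNat.factorial : ℕ) : ℚ) : ℚ) : ℂ) *
        (algebraMap k ℂ (b.eval (n : k)) * ((ifac fun i => tt i : ℚ) : ℂ)) := by ring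
    _ = _ := by
      rw [h3]
      ring


end L

section Lev

variable {σ I : Type} [Fintype σ] [Fintype I]

theorem ker_zero [Nonempty I] (a : I → σ → ℕ) (w : σ → ℕ) (κ : I → ℤ) (hκ : κ ∈ Ker a)
    (h : ∀ i, i ∉ face a w → 0 ≤ κ i) : ∀ i, i ∉ face a w → κ i = 0 := by
  obtain ⟨h1, h2⟩ := mem_Ker.1 hκ
  have h3 : ∑ i, κ i * ((dot w (a i) : ℤ) - (Nw a w : ℤ)) = 0 := by
    have e1 : ∀ i, κ i * ((dot w (a i) : ℤ) - (Nw a w : ℤ)) =
        (∑ l, (w l : ℤ) * (κ i * (a i l : ℤ))) - κ i * (Nw a w : ℤ) := by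
      intro i
      rw [mul_sub]
      congr 1
      unfold dot
      push_cast
      rw [Finset.mul_sum]
      exact Finset.sum_congr rfl fun l _ => by ring
    rw [Finset.sum_congr rfl fun i _ => e1 i, Finset.sum_sub_distrib, Finset.sum_comm,
      ← Finset.sum_mul, h1, zero_mul, sub_zero]
    refine Finset.sum_eq_zero fun l _ => ?_
    rw [← Finset.mul_sum, h2 l, mul_zero]
  have h4 : ∀ i ∈ Finset.univ, 0 ≤ κ i * ((dot w (a i) : ℤ) - (Nw a w : ℤ)) := by
    intro i _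
    by_cases hi : i ∈ face a w
    · rw [mem_face_iff] at hi
      rw [hi, sub_self, mul_zero]
    · refine mul_nonneg (h i hi) ?_
      have := Nw_le a w i
      omega
  intro i hi
  have h5 := (Finset.sum_eq_zero_iff_of_nonneg h4).1 h3 i (Finset.mem_univ i)
  have h6 : (dot w (a i) : ℤ) - (Nw a w : ℤ) ≠ 0 := by
    have := Nw_le a w i
    rw [mem_face_iff] at hi
    omega
  rcases mul_eq_zero.1 h5 with h7 | h7
  · exact h7
  · exact absurd h7 h6

end Lev

end LCZ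

attribute [local instance] MvPolynomial.gradedAlgebra

open Classical in
theorem sLcz (hLci : Pool.Newt4.SLci) (hLcf : Pool.Newt4.SLcf) (hLcv : Pool.Newt4.SLcv) : SLcz := by
  intro σ I _ _ _ k _ _ a c hc b Γ r hId α hb hF t0 ht0 W hW T hT
  have : CharZero k := (algebraMap k ℂ).charZero_iff (FaithfulSMul.algebraMap_injective k ℂ) |>.2 inferInstance
  -- faces
  let V : Set (Set I) := {F | ∃ w : σ → ℕ, Rigid a w ∧ 0 < Nw a w ∧
    -α * (Nw a w : ℚ) ≤ ((∑ l, w l : ℕ) : ℚ) ∧ (∀ i ∈ T, i ∈ face a w) ∧ F = face a w}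
  -- the shifts
  let D : Set (I → ℤ) := {δ | ∑ i, δ i = 1 ∧ (fun l => -∑ i, δ i * (a i l : ℤ)) ∈ Γ ∧
    ∃ F ∈ V, ∀ i, i ∉ F → 0 ≤ δ i}
  have hDfin : D.Finite := by
    have h1 : D ⊆ ⋃ γ ∈ Γ, ⋃ F ∈ V, {δ : I → ℤ | ∑ i, δ i = 1 ∧
        (∀ l, ∑ i, δ i * (a i l : ℤ) = -γ l) ∧ ∀ i, i ∉ F → 0 ≤ δ i} := by
      rintro δ ⟨h1, h2, F, h3, h4⟩
      simp only [Set.mem_iUnion]
      exact ⟨_, h2, F, h3, h1, fun l => by simp, h4⟩
    refine Set.Finite.subset (Set.Finite.biUnion Γ.finite_toSet fun γ _ =>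
      Set.Finite.biUnion (Set.toFinite V) fun F hF' => ?_) h1
    obtain ⟨w, h1, h2, h3, h4, rfl⟩ := hF'
    exact hLcf σ I a w (hF w h1 h2 h3) 1 (fun l => -γ l)
  let Dd := hDfin.toFinset
  have hDd0 : ∀ δ, δ ∈ Dd ↔ δ ∈ D := fun δ => hDfin.mem_toFinset
  obtain ⟨m, hm⟩ : ∃ m : I → ℕ, ∀ i, i ∉ T → t0 i = -(m i : ℝ) := by
    have h1 : ∀ i, ∃ m : ℕ, i ∉ T → t0 i = -(m : ℝ) := by
      intro i
      by_cases hi : i ∈ T
      · exact ⟨0, fun h => absurd hi h⟩
      · obtain ⟨m, hm⟩ := hT i hi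
        exact ⟨m, fun _ => hm⟩
    choose m hm using h1
    exact ⟨m, hm⟩
  obtain ⟨J, hJ1, hJ2⟩ : ∃ J : ℕ, (∀ δ ∈ Dd, ∀ i, δ i ≤ J) ∧
      ∀ (i : I) (m : ℕ), t0 i = -m → m ≤ J := by
    refine ⟨(∑ δ ∈ Dd, ∑ i, (δ i).natAbs) + ∑ i, ⌈|t0 i|⌉₊, fun δ hδ i => ?_, fun i m h => ?_⟩
    · have h1 : ∑ i, (δ i).natAbs ≤ ∑ δ ∈ Dd, ∑ i, (δ i).natAbs :=
        Finset.single_le_sum (f := fun δ : I → ℤ => ∑ i, (δ i).natAbs) (fun _ _ => Nat.zero_le _) hδ
      have h2 : (δ i).natAbs ≤ ∑ i, (δ i).natAbs :=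
        Finset.single_le_sum (f := fun i => (δ i).natAbs) (fun _ _ => Nat.zero_le _)
          (Finset.mem_univ i)
      have h5 : (δ i).natAbs ≤ (∑ δ ∈ Dd, ∑ i, (δ i).natAbs) + ∑ i, ⌈|t0 i|⌉₊ :=
        (h2.trans h1).trans (Nat.le_add_right _ _)
      omega
    · have h1 : m ≤ ⌈|t0 i|⌉₊ := by
        have : ((m : ℕ) : ℝ) ≤ ((⌈|t0 i|⌉₊ : ℕ) : ℝ) := by
          calc ((m : ℕ) : ℝ) = |t0 i| := by rw [h, abs_neg, Nat.abs_cast]
            _ ≤ _ := Nat.le_ceil _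
        exact_mod_cast this
      exact (h1.trans (Finset.single_le_sum (f := fun i => ⌈|t0 i|⌉₊) (fun _ _ => Nat.zero_le _)
        (Finset.mem_univ i))).trans (Nat.le_add_left _ _)
  -- the polynomial
  let tr : MvPolynomial I ℂ →ₐ[ℂ] MvPolynomial I ℂ := aeval fun i => X i + C (t0 i : ℂ)
  have htr : ∀ (p : MvPolynomial I ℂ) (y : I → ℂ), eval y (tr p) = eval (fun i => y i + (t0 i : ℂ)) p := by
    intro p y
    have e1 : (eval y).comp tr.toRingHom = eval (fun i => y i + (t0 i : ℂ)) := by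
      apply MvPolynomial.ringHom_ext
      · intro c
        simp [tr]
      · intro i
        simp [tr]
    exact RingHom.congr_fun e1 p
  have hG : tr (LCZ.LL a c b r J Dd) ∈ Ideal.span {g | ∃ S : Finset I,
      (∀ F ∈ V, ¬ ((S : Set I) ⊆ F)) ∧ g = ∏ i ∈ S, X i} := by
    refine hLcv I _ (fun i => (t0 i : ℂ)) V ?_
    rintro F ⟨w, hw1, hw2, hw3, hw4, rfl⟩
    refine ⟨∑ i, m i, fun t ht y hy1 hy2 => ?_⟩
    rw [htr]
    -- the integral point
    let tt : I → ℤ := fun i => if i ∈ face a w then (t i : ℤ) else -(m i : ℤ)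
    have htt1 : ∀ i, i ∈ face a w → tt i = t i := fun i hi => if_pos hi
    have htt2 : ∀ i, i ∉ face a w → tt i = -(m i : ℤ) := fun i hi => if_neg hi
    have hz : ∀ i, y i + (t0 i : ℂ) = (tt i : ℂ) := by
      intro i
      by_cases hi : i ∈ face a w
      · rw [htt1 i hi, hy1 i hi]
        push_cast
        ring
      · rw [htt2 i hi, hy2 i hi, hm i (fun h => hi (hw4 i h))]
        push_cast
        ring
    have hge : ∀ i, -(m i : ℤ) ≤ tt i := by
      intro i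
      by_cases hi : i ∈ face a w
      · rw [htt1 i hi]
        omega
      · rw [htt2 i hi]
    have hn0 : 0 ≤ ∑ i, tt i := by
      obtain ⟨i0, hi0⟩ := exists_mem_face a w
      rw [← Finset.add_sum_erase _ _ (Finset.mem_univ i0)]
      have h1 : ∑ i ∈ Finset.univ.erase i0, -(m i : ℤ) ≤ ∑ i ∈ Finset.univ.erase i0, tt i :=
        Finset.sum_le_sum fun i _ => hge i
      have h2 : ∑ i ∈ Finset.univ.erase i0, (m i : ℤ) ≤ ∑ i, (m i : ℤ) :=
        Finset.sum_le_sum_of_subset_of_nonneg (Finset.erase_subset _ _)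
          fun _ _ _ => Int.natCast_nonneg _
      have h3 : ((∑ i, m i : ℕ) : ℤ) ≤ t i0 := by exact_mod_cast ht i0 hi0
      rw [htt1 i0 hi0]
      rw [Finset.sum_neg_distrib] at h1
      push_cast at h3
      linarith
    obtain ⟨n, hn⟩ := Int.eq_ofNat_of_zero_le hn0
    refine LCZ.eval_LL a c hc b Γ r hId hLci J Dd _ tt hz n hn hJ1 (fun i => ?_) ?_ (fun δ hδ => ?_) ?_
    · by_cases hi : i ∈ face a w
      · rw [htt1 i hi]
        omega
      · rw [htt2 i hi]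
        have := hJ2 i (m i) (hm i (fun h => hi (hw4 i h)))
        omega
    · intro κ hκ h
      have h1 := LCZ.ker_zero a w κ hκ (fun i hi => by
        have := h i
        rw [htt2 i hi] at this
        omega)
      exact hF w hw1 hw2 hw3 κ hκ h1
    · obtain ⟨h1, h2, -⟩ := (hDd0 δ).1 hδ
      exact ⟨h1, h2⟩
    · intro δ h1 h2 h3
      refine (hDd0 δ).2 ⟨h1, h2, _, ⟨w, hw1, hw2, hw3, hw4, rfl⟩, fun i hi => ?_⟩
      have := h3 i
      rw [htt2 i hi] at this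
      omega
  set Gn : Set (MvPolynomial I ℂ) := {g | ∃ δ : I → ℤ, ∑ i, δ i = 1 ∧ g = (∏ i ∈ Zr t0 δ, X i) *
          ∏ l ∈ W.filter (fun l => 0 < ∑ i, δ i * (a i l : ℤ)), lfC (fun i => (a i l : ℤ))} ∪
        {g | ∃ S : Finset I, Nfc a α T S ∧ g = ∏ i ∈ S, X i} with hGn
  have hXp : ∀ Z : Finset I, (∏ i ∈ Z, X i : MvPolynomial I ℂ).IsHomogeneous Z.card := by
    intro Z
    have := IsHomogeneous.prod Z (fun i => (X i : MvPolynomial I ℂ)) (fun _ => 1)
      fun i _ => isHomogeneous_X ℂ i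
    simpa using this
  have hlf : ∀ β : I → ℤ, (lfC β).IsHomogeneous 1 := by
    intro β
    unfold lfC
    refine IsHomogeneous.sum _ _ _ fun i _ => ?_
    have := (isHomogeneous_C I (β i : ℂ)).mul (isHomogeneous_X ℂ i)
    simpa using this
  have hhom : (Ideal.span Gn).IsHomogeneous (homogeneousSubmodule I ℂ) := by
    refine Ideal.homogeneous_span _ _ ?_
    rintro g (⟨δ, -, rfl⟩ | ⟨S, -, rfl⟩)
    · refine ⟨_, (hXp _).mul (IsHomogeneous.prod _ _ (fun _ => 1) fun l _ => hlf _)⟩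
    · exact ⟨_, hXp _⟩
  have hG' : tr (LCZ.LL a c b r J Dd) ∈ Ideal.span Gn := by
    refine Ideal.span_mono ?_ hG
    rintro g ⟨S, hS, rfl⟩
    refine Or.inr ⟨S, fun w h1 h2 h3 h4 => ?_, rfl⟩
    exact hS (face a w) ⟨w, h1, h2, h3, fun i hi => h4 i (Or.inr hi), rfl⟩
      fun i hi => h4 i (Or.inl hi)
  choose u hu0 hu using LCR_pg t0 J hJ2
  choose v hv using LCR_dd a t0 W hW
  have hmap : ∀ p : MvPolynomial I ℚ, tr (map (algebraMap ℚ ℂ) p) = LCR_tr t0 p := by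
    intro p
    show aeval (fun i => X i + C (t0 i : ℂ)) (map (algebraMap ℚ ℂ) p) = _
    rw [aeval_map_algebraMap]
    rfl
  -- the polynomial `b`
  set β : ℂ := algebraMap k ℂ (b.eval (α : k)) with hβ
  have hβ0 : β ≠ 0 := by
    rw [hβ]
    exact (map_ne_zero _).2 hb
  obtain ⟨q, hq⟩ : ∃ q : MvPolynomial I ℂ, tr (Polynomial.aeval (∑ i, X i : MvPolynomial I ℂ)
      (b.map (algebraMap k ℂ))) = C β + (∑ i, X i) * q := by
    have h1 : (b.map (algebraMap k ℂ)).eval (α : ℂ) = β := by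
      have e1 : (α : ℂ) = algebraMap k ℂ (α : k) := by rw [map_ratCast]
      rw [e1, Polynomial.eval_map, Polynomial.eval₂_at_apply]
    obtain ⟨q, hq⟩ := Polynomial.X_sub_C_dvd_sub_C_eval (a := (α : ℂ)) (p := b.map (algebraMap k ℂ))
    rw [h1, sub_eq_iff_eq_add] at hq
    have h2 : tr (∑ i, X i) = (∑ i, X i) + C (α : ℂ) := by
      rw [map_sum]
      have e2 : ((∑ i, t0 i : ℝ) : ℂ) = (α : ℂ) := by
        rw [ht0]
        simp
      rw [← e2]
      push_cast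
      rw [map_sum]
      simp only [tr, aeval_X]
      rw [Finset.sum_add_distrib]
    refine ⟨tr (Polynomial.aeval (∑ i, X i : MvPolynomial I ℂ) q), ?_⟩
    rw [hq, map_add, map_mul, Polynomial.aeval_C, map_sub, Polynomial.aeval_X, Polynomial.aeval_C,
      map_add, map_mul, map_sub, h2]
    simp only [MvPolynomial.algebraMap_eq]
    have e3 : ∀ z : ℂ, tr (C z) = C z := fun z => by
      simp [tr]
    rw [e3, e3]
    ring
  -- the other terms
  have hsnd : tr (((∑ i, X i) + 1) * ∑ δ ∈ Dd, C (algebraMap k ℂ (∏ i, c i ^ δ i)) *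
      (map (algebraMap ℚ ℂ) (Pg J δ) * map (algebraMap ℚ ℂ) (dd a δ) * LCZ.QQd a r δ)) ∈
      Ideal.span Gn := by
    rw [map_mul, map_sum]
    refine Ideal.mul_mem_left _ _ (Ideal.sum_mem _ fun δ hδ => ?_)
    rw [map_mul, map_mul, map_mul, hmap, hmap, hu, hv]
    have e : ∀ A B Cc Dd' Ee Ff : MvPolynomial I ℂ, A * (B * Cc * (Dd' * Ee) * Ff) =
        (B * Dd') * (A * Cc * Ee * Ff) := by
      intro A B Cc Dd' Ee Ff
      ring
    rw [e]
    exact Ideal.mul_mem_right _ _ (Ideal.subset_span (Or.inl ⟨δ, ((hDd0 δ).1 hδ).1, rfl⟩))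
  have h2 : (∏ i ∈ Zr t0 0, X i) * ((C β + (∑ i, X i) * q) * u 0) ∈ Ideal.span Gn := by
    have e : (∏ i ∈ Zr t0 0, X i) * ((C β + (∑ i, X i) * q) * u 0) =
        tr (LCZ.LL a c b r J Dd) + tr (((∑ i, X i) + 1) * ∑ δ ∈ Dd,
          C (algebraMap k ℂ (∏ i, c i ^ δ i)) * (map (algebraMap ℚ ℂ) (Pg J δ) *
            map (algebraMap ℚ ℂ) (dd a δ) * LCZ.QQd a r δ)) := by
      unfold LCZ.LL
      rw [map_sub, map_mul tr (Polynomial.aeval _ _), hq, hmap, hu]
      ring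
    rw [e]
    exact Ideal.add_mem _ hG' hsnd
  have h3 := homogeneousComponent_mem_of_mem hhom h2 (Zr t0 0).card
  rw [LCR_hc _ _ _ _ (hXp _), if_pos le_rfl, Nat.sub_self, homogeneousComponent_zero] at h3
  have hcc : coeff 0 ((C β + (∑ i, X i) * q) * u 0) = β * constantCoeff (u 0) := by
    show constantCoeff ((C β + (∑ i, X i) * q) * u 0) = _
    rw [map_mul, map_add, map_mul, map_sum, constantCoeff_C]
    simp
  rw [hcc] at h3
  have hc' : β * constantCoeff (u 0) ≠ 0 := mul_ne_zero hβ0 (hu0 0)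
  have h5 := Ideal.mul_mem_left _ (C ((β * constantCoeff (u 0))⁻¹)) h3
  have e6 : C ((β * constantCoeff (u 0))⁻¹) * ((∏ i ∈ Zr t0 0, X i) *
      C (β * constantCoeff (u 0))) = (∏ i ∈ Zr t0 0, X i : MvPolynomial I ℂ) := by
    rw [mul_comm, mul_assoc, ← C_mul, mul_inv_cancel₀ hc', C_1, mul_one]
  rw [e6] at h5
  exact h5

end Pool.Newt5
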