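import Pool.Agent.H39.Newt5.Stmts
import Pool.Agent.H3.Newt2.PSI

/-!
# Project NEWTON3, module PSB: the universal series have no pole of the ratio `-α`
-/

set_option autoImplicit false

namespace Pool.Newt5

open MvPolynomial Pool.Agent.H39.MonoR Pool.Agent.H75.Mono Pool.Newt Pool.Newt2 Pool.Newt3

namespace PSB

section Den

variable {σ I : Type} [Fintype σ] [Fintype I]

/-- the denominators over `ℂ` -/
noncomputable def dE (a : I → σ → ℕ) (x : ℝ) (W : Multiset (σ → ℕ)) : Polynomial ℂ :=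
  (W.map fun w => (1 - Polynomial.C ((x : ℂ)⁻¹ ^ (∑ l, w l)) * Polynomial.X ^ (Nw a w) :
    Polynomial ℂ)).prod

theorem dE_coe (a : I → σ → ℕ) (x : ℝ) (W : Multiset (σ → ℕ)) :
    (dE a x W : PowerSeries ℂ) = PowerSeries.map Complex.ofRealHom (dW a x⁻¹ W) := by
  unfold dE dW
  induction W using Multiset.induction with
  | empty => simp
  | cons w W ih =>
    rw [Multiset.map_cons, Multiset.prod_cons, Multiset.map_cons, Multiset.prod_cons, map_mul,
      Polynomial.coe_mul, ih]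
    have e : ((1 - Polynomial.C ((x : ℂ)⁻¹ ^ (∑ l, w l)) * Polynomial.X ^ (Nw a w) :
        Polynomial ℂ) : PowerSeries ℂ) = PowerSeries.map Complex.ofRealHom
        (1 - PowerSeries.C (x⁻¹ ^ (∑ l, w l)) * PowerSeries.X ^ (Nw a w)) := by
      simp
    rw [e]

theorem dE_ne (a : I → σ → ℕ) {x : ℝ} (hx : 1 < x) (α : ℚ) (W : Multiset (σ → ℕ))
    (hW : ∀ w ∈ W, ((∑ l, w l : ℕ) : ℚ) ≠ -α * (Nw a w : ℚ)) {z : ℂ}
    (hz : ‖z‖ = x ^ (-(α : ℝ))) : (dE a x W).eval z ≠ 0 := by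
  unfold dE
  induction W using Multiset.induction with
  | empty => simp
  | cons w W ih =>
    rw [Multiset.map_cons, Multiset.prod_cons, Polynomial.eval_mul]
    refine mul_ne_zero (den_eval_ne hx ?_ hz) (ih fun w' hw' => hW w' (Multiset.mem_cons_of_mem hw'))
    intro h
    apply hW w (Multiset.mem_cons_self w W)
    have : (((∑ l, w l : ℕ) : ℚ) : ℝ) = ((-α * (Nw a w : ℚ) : ℚ) : ℝ) := by
      push_cast
      push_cast at h
      exact h.symm
    exact_mod_cast this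

/-- denominators without zeros on the circle -/
theorem reg_of_dW (a : I → σ → ℕ) {x : ℝ} (hx : 1 < x) (α : ℚ) (W : Multiset (σ → ℕ))
    (hW : ∀ w ∈ W, ((∑ l, w l : ℕ) : ℚ) ≠ -α * (Nw a w : ℚ)) (S : PowerSeries ℝ) (N0 : ℕ)
    (h : ∀ N, N0 ≤ N → PowerSeries.coeff N (dW a x⁻¹ W * S) = 0) :
    RegC (x ^ (-(α : ℝ))) (PowerSeries.map Complex.ofRealHom S) := by
  refine RegC.of_mul (dE a x W) (fun z hz => dE_ne a hx α W hW hz) (Pol.regC ?_ _)
  refine ⟨N0, fun N hN => ?_⟩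
  rw [dE_coe, ← map_mul, PowerSeries.coeff_map, h N hN, map_zero]

end Den

section Terms

variable {σ I : Type} [Fintype σ] [Fintype I] [Nonempty I]

/-- the terms with a linear relation -/
theorem aZ (hRtb : SRtb) (hEvq : SEvq) (a : I → σ → ℕ) (α : ℚ) (hS : Simp a α)
    (Z : Finset I) (hZ : rk a Z ≠ PSI.ee a Finset.univ Z) (x : ℝˣ) (hx : 1 < (x : ℝ)) :
    RegC ((x : ℝ) ^ (-(α : ℝ)))
      (PowerSeries.map Complex.ofRealHom (Us a (↑(x⁻¹) : ℝ) Z)) := by
  classical
  obtain ⟨W, hW, h⟩ := hRtb σ I a (PSI.sl σ Z)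
  obtain ⟨N0, h⟩ := h 1
  obtain ⟨κ, hκ1, hκ2, i0, hi0, hi0', hi0''⟩ := PSI.rel a Finset.univ Z hZ
  have hx0 : (0 : ℝ) < x := by linarith
  have hinv : (↑(x⁻¹) : ℝ) = (x : ℝ)⁻¹ := Units.val_inv_eq_inv_val x
  have hZ0 : Z ≠ ∅ := by
    rintro rfl
    exact absurd hi0' (Finset.notMem_empty _)
  have hSer : Us a (↑(x⁻¹) : ℝ) Z = Ser a (↑(x⁻¹) : ℝ) (phi x Z ∅) := by
    rw [(hEvq σ I a x hx).1 Z ∅, if_neg hZ0, zero_add]
    simp
  rw [hSer, hinv]
  refine reg_of_dW a hx α W (fun w hw hα => ?_) _ N0 (h _ (phi x Z ∅) (inv_pos.2 hx0)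
    (inv_lt_one_of_one_lt₀ hx) (PSI.phi_thr _ _ _) ?_ (PSI.phi_none _ _ _))
  · obtain ⟨h1, h2, h3⟩ := hW w hw
    have hface : ∀ i ∈ Z, i ∈ face a w := fun i hi =>
      (lam_face a w i).1 (h3 _ (PSI.mem_sl.2 hi) (by simp))
    have hs : ∑ i, κ i = 0 := by
      have h5 : ∑ i, κ i * (dot w (a i) : ℤ) = 0 := by
        have h6 : ∀ i, κ i * (dot w (a i) : ℤ) = ∑ j, (w j : ℤ) * (κ i * (a i j : ℤ)) := by
          intro i
          unfold dot
          push_cast
          rw [Finset.mul_sum]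
          exact Finset.sum_congr rfl fun j _ => by ring
        rw [Finset.sum_congr rfl fun i _ => h6 i, Finset.sum_comm]
        exact Finset.sum_eq_zero fun j _ => by rw [← Finset.mul_sum, hκ2 j, mul_zero]
      have h7 : ∑ i, κ i * (dot w (a i) : ℤ) = (∑ i, κ i) * (Nw a w : ℤ) := by
        rw [Finset.sum_mul]
        refine Finset.sum_congr rfl fun i _ => ?_
        by_cases hi : i ∈ Z
        · rw [(mem_face_iff a w i).1 (hface i hi)]
        · rw [hκ1 i hi, zero_mul, zero_mul]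
      rw [h7] at h5
      rcases mul_eq_zero.1 h5 with h8 | h8
      · exact h8
      · omega
    have h9 := hS w h1 h2 hα κ ⟨hs, hκ2⟩ fun i' hi' => hκ1 i' fun h => hi' (hface i' h)
    exact hi0'' (by rw [h9]; rfl)
  · intro ξ hξ
    unfold PSI.sl at hξ
    obtain ⟨i, hi, rfl⟩ := Finset.mem_image.1 hξ
    exact PSI.phi_slb _ _ _ hi

/-- the terms of KEY -/
theorem bZ (hKey : SKey) (a : I → σ → ℕ) (α : ℚ) (hL : Lcl a α) (hS : Simp a α) (Z : Finset I) (hZ : ∀ i l, ¬ Val a Z i l)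
    (x : ℝˣ) (hx : 1 < (x : ℝ)) :
    RegC ((x : ℝ) ^ (-(α : ℝ))) (PowerSeries.map Complex.ofRealHom
      (Ser a (↑(x⁻¹) : ℝ) (phi x Z Finset.univ))) := by
  rw [Units.val_inv_eq_inv_val x]
  exact hKey σ I a α hL hS Z hZ x hx

end Terms

end PSB

/-- PSB: the universal series have no pole of the ratio `-α` -/
theorem sPsb (hKey : SKey) (hRtb : SRtb) (hEvl : SEvl) (hEvq : SEvq) : SPsb := by
  classical
  intro σ I _ _ _ a α hL hS x hx D hD
  set r : ℝ := (x : ℝ) ^ (-(α : ℝ)) with hr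
  -- the part without poles
  have hT : RegC r (PowerSeries.map Complex.ofRealHom
      ((∑ τ : Finset I, PowerSeries.C ((-1) ^ τ.card * (D τ : ℝ) *
        (((x : ℝ) - 1) ^ ((Fintype.card σ : ℤ) - (rk a τ : ℤ)) -
          ((x : ℝ) - 1) ^ ((Fintype.card σ : ℤ) - (PSI.ee a Finset.univ τ : ℤ)))) *
            Us a (↑(x⁻¹) : ℝ) τ) +
      ∑ Z : Finset I, PowerSeries.C (PSI.kap a Finset.univ D ((x : ℝ) - 1) Z) *
        Ser a (↑(x⁻¹) : ℝ) (phi x Z Finset.univ))) := by
    rw [map_add, map_sum, map_sum]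
    refine RegC.add (RegC.sum _ _ fun τ _ => ?_) (RegC.sum _ _ fun Z _ => ?_)
    · by_cases h : rk a τ = PSI.ee a Finset.univ τ
      · rw [h, sub_self, mul_zero, map_zero, zero_mul, map_zero]
        exact RegC.zero r
      · rw [map_mul, PowerSeries.map_C]
        exact (PSB.aZ hRtb hEvq a α hS τ h x hx).C_mul _
    · by_cases h : ∀ i l, ¬ Val a Z i l
      · rw [map_mul, PowerSeries.map_C]
        exact (PSB.bZ hKey a α hL hS Z h x hx).C_mul _
      · push Not at h
        obtain ⟨i, l, h1⟩ := h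
        unfold PSI.kap
        rw [PSI.Dp_zero a Finset.univ (fun _ => l) D hD Z h1.1 (Finset.mem_univ i) h1, mul_zero,
          map_zero, zero_mul, map_zero]
        exact RegC.zero r
  have hid := PSI.ident hEvl hEvq a Finset.univ D x hx
  have hcomp : ∀ Φ : PowerSeries (LaurentPolynomial ℤ),
      PowerSeries.map (Complex.ofRealHom.comp (ev x)) Φ =
        PowerSeries.map Complex.ofRealHom (PowerSeries.map (ev x) Φ) := by
    intro Φ
    ext N
    rw [PowerSeries.coeff_map, PowerSeries.coeff_map, PowerSeries.coeff_map]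
    rfl
  constructor
  · intro h0
    rw [h0, Int.cast_zero, mul_zero, map_zero, zero_mul, sub_zero] at hid
    rw [hcomp, hid]
    exact hT
  · intro h1
    have e : PowerSeries.map (ev x) ((1 - PowerSeries.X) * Psi a D - QQ a) =
        (1 - PowerSeries.X) * PowerSeries.map (ev x) (Psi a D) -
          PowerSeries.map (ev x) (QQ a) := by
      rw [map_sub, map_mul, map_sub, map_one, PowerSeries.map_X]
    have h2 : Pol (PowerSeries.map Complex.ofRealHom ((1 - PowerSeries.X) * As a (↑(x⁻¹) : ℝ) +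
        ∑ τ : Finset I, Us a (↑(x⁻¹) : ℝ) τ)) := by
      refine ⟨2, fun N hN => ?_⟩
      rw [PowerSeries.coeff_map, map_add, (hEvq σ I a x hx).2 N hN, map_sum, neg_add_cancel,
        map_zero]
    rw [hcomp, e, hid, PSI.ev_QQ hEvl a x hx, h1,
      Int.cast_one, mul_one, mul_sub (1 - PowerSeries.X), mul_left_comm (1 - PowerSeries.X)
        (PowerSeries.C (((x : ℝ) - 1) ^ (Fintype.card σ : ℤ))), sub_sub, ← mul_add, map_sub,
      map_mul (PowerSeries.map Complex.ofRealHom) (PowerSeries.C _), PowerSeries.map_C]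
    refine RegC.sub ?_ ((h2.regC r).C_mul _)
    have e2 : (PowerSeries.map Complex.ofRealHom (1 - PowerSeries.X) : PowerSeries ℂ) =
        ((1 - Polynomial.X : Polynomial ℂ) : PowerSeries ℂ) := by
      simp
    rw [map_mul, e2]
    exact hT.poly_mul _

end Pool.Newt5
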