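import Pool.Agent.H39.Newt5.Stmts

set_option autoImplicit false

namespace Pool.Newt5

open MvPolynomial Pool.Agent.H39.MonoR Pool.Agent.H75.Mono Pool.Newt Pool.Newt2 Pool.Newt3
open Pool.Newt4 (Nfc)

theorem sRgd : SRgd := by
  classical
  intro σ I _ _ _ a V hV
  have hne : Nonempty V := by
    obtain ⟨q, -, h2, h3, -⟩ := hV (Classical.arbitrary I)
    by_contra h
    have h4 : ∀ i, q i = 0 := fun i => h2 i fun hi => h ⟨⟨i, hi⟩⟩
    rw [Finset.sum_eq_zero fun i _ => h4 i] at h3
    exact zero_ne_one h3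
  refine ⟨hne, fun w => ?_⟩
  have hmin : ∀ j, Nw (rst a V) w ≤ dot w (a j) := by
    intro j
    obtain ⟨q, h1, h2, h3, h4⟩ := hV j
    have h5 : (dot w (a j) : ℚ) = ∑ i, q i * (dot w (a i) : ℚ) := by
      unfold dot
      push_cast
      simp_rw [Finset.mul_sum]
      rw [Finset.sum_comm]
      refine Finset.sum_congr rfl fun l _ => ?_
      rw [← h4 l, Finset.mul_sum]
      exact Finset.sum_congr rfl fun i _ => by ring
    have h6 : (Nw (rst a V) w : ℚ) ≤ (dot w (a j) : ℚ) := by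
      rw [h5]
      calc (Nw (rst a V) w : ℚ) = ∑ i, q i * (Nw (rst a V) w : ℚ) := by
            rw [← Finset.sum_mul, h3, one_mul]
        _ ≤ ∑ i, q i * (dot w (a i) : ℚ) := by
            refine Finset.sum_le_sum fun i _ => ?_
            by_cases hi : i ∈ V
            · exact mul_le_mul_of_nonneg_left (by exact_mod_cast Nw_le (rst a V) w ⟨i, hi⟩) (h1 i)
            · rw [h2 i hi, zero_mul, zero_mul]
    exact_mod_cast h6
  have hN : Nw (rst a V) w = Nw a w := by
    apply le_antisymm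
    · refine le_csInf ⟨_, ⟨Classical.arbitrary I, rfl⟩⟩ ?_
      rintro _ ⟨j, rfl⟩
      exact hmin j
    · refine le_csInf ⟨_, ⟨Classical.arbitrary V, rfl⟩⟩ ?_
      rintro _ ⟨j, rfl⟩
      exact Nw_le a w j.1
  have hface : ∀ i : V, i ∈ face (rst a V) w ↔ (i : I) ∈ face a w := by
    intro i
    rw [mem_face_iff, mem_face_iff, hN]
    rfl
  refine ⟨hN, hface, fun h => ?_⟩
  unfold Rigid at h ⊢
  let e : face (rst a V) w → face a w := fun i => ⟨i.1.1, (hface i.1).1 i.2⟩
  exact LinearIndependent.of_comp (LinearMap.funLeft ℚ ℚ e) h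

end Pool.Newt5
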