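import Pool.Agent.H39.Newt.FIN
import Pool.Agent.H39.Newt5.HandIn
import Pool.Agent.H1.Newt2.LEX
import Pool.Agent.H1.Newt3.KLK
import Pool.Agent.H1.Newt4.LCV
import Pool.Agent.H11.Newt2.EVL
import Pool.Agent.H11.Newt2.EVQ
import Pool.Agent.H11.Newt3.NulA
import Pool.Agent.H11.Newt5.RES
import Pool.Agent.H11.Newt5.ZFV
import Pool.Agent.H15.Newt2.TEM
import Pool.Agent.H2.Newt2.RAT
import Pool.Agent.H2.Newt3.RLC
import Pool.Agent.H3.Newt2.PSI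
import Pool.Agent.H31.Newt3.KLD
import Pool.Agent.H33.Newt2.LAP
import Pool.Agent.H33.Newt2.LUN
import Pool.Agent.H33.Newt2.SLB
import Pool.Agent.H33.Newt3.KPB
import Pool.Agent.H33.Newt4.KLS
import Pool.Agent.H33.Newt4.LCF
import Pool.Agent.H33.Newt5.RCT
import Pool.Agent.H33.Newt5.ZTB
import Pool.Agent.H34.Newt3.RTB
import Pool.Agent.H37.Newt2.MEM
import Pool.Agent.H37.Newt3.LVN
import Pool.Agent.H39.Newt3.RLA
import Pool.Agent.H39.Newt5.KEY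
import Pool.Agent.H39.Newt5.KPT
import Pool.Agent.H39.Newt5.LCZ
import Pool.Agent.H39.Newt5.PSB
import Pool.Agent.H39.Newt5.RGD
import Pool.Agent.H4.Newt2.MBA
import Pool.Agent.H41.Newt2.ZCP
import Pool.Agent.H41.Newt3.INB
import Pool.Agent.H47.Newt2.TAP
import Pool.Agent.H47.Newt2.TIN
import Pool.Agent.H49.Newt2.TSP
import Pool.Agent.H57.Newt3.KPA
import Pool.Agent.H58.Newt3.RLB
import Pool.Agent.H62.Newt2.TEA
import Pool.Agent.H62.Newt3.TRF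
import Pool.Agent.H64.Newt3.FSM
import Pool.Agent.H64.Newt4.LCI
import Pool.Agent.H64.Newt5.LCW
import Pool.Agent.H65.Newt2.SUM
import Pool.Agent.H67.Newt2.ZFM
import Pool.Agent.H7.Newt2.TAF
import Pool.Agent.H82.Newt2.MIN
import Pool.Agent.H83.Newt2.GEO
import Pool.Agent.H85.Newt2.LPZ
import Pool.Agent.H87.Newt2.FNR
import Pool.Agent.H87.Newt2.TEL
import Pool.Agent.H96.Newt2.CLS
import Pool.Agent.H99.Newt3.LCR

/-! # Projects NEWTON2-5: assembly -/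

set_option autoImplicit false

namespace Pool.Newt

open MvPolynomial
open Pool.Agent.H39.MonoR (Zmot RS IsRoot)

theorem g2Tin : Pool.Newt2.STin := Pool.Newt2.sTin

theorem g2Tsp : Pool.Newt2.STsp := Pool.Newt2.sTsp

theorem g2Taf : Pool.Newt2.STaf := Pool.Newt2.sTaf

theorem g2Tap : Pool.Newt2.STap := Pool.Newt2.sTap

theorem g2Lun : Pool.Newt2.SLun := Pool.Newt2.sLun

theorem g2Lex : Pool.Newt2.SLex := Pool.Newt2.lex

theorem g2Lap : Pool.Newt2.SLap := Pool.Newt2.sLap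

theorem g2Cls : Pool.Newt2.SCls := Pool.Newt2.CLS.sCls g2Tin g2Tsp g2Taf g2Tap g2Lun g2Lex g2Lap

theorem g2Zcp : Pool.Newt2.SZcp := Pool.Newt2.sZcp fArc fCla fClb

theorem g2Geo : Pool.Newt2.SGeo := Pool.Newt2.sGeo

theorem g2Lpz : Pool.Newt2.SLpz := Pool.Newt2.sLpz

theorem g2Evl : Pool.Newt2.SEvl := Pool.Newt2.sEvl g2Geo g2Lpz

theorem g2Zfm : Pool.Newt2.SZfm := Pool.Newt2.sZfm g2Cls g2Zcp g2Evl

theorem g2Mba : Pool.Newt2.SMba := Pool.Newt2.sMba g2Lap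

theorem g2Sum : Pool.Newt2.SSum := Pool.Newt2.sSum

theorem g2Tea : Pool.Newt2.STea := Pool.Newt2.sTea

theorem g2Tel : Pool.Newt2.STel := Pool.Newt2.sTel g2Sum g2Tea

theorem g2Tem : Pool.Newt2.STem := Pool.Newt2.sTem g2Sum g2Tea

theorem g2Fnr : Pool.Newt2.SFnr := Pool.Newt2.sFnr

theorem g2Min : Pool.Newt2.SMin := Pool.Newt2.min_thm

theorem g2Rat : Pool.Newt2.SRat := Pool.Newt2.sRat g2Tel g2Fnr g2Min

theorem g2Slb : Pool.Newt2.SSlb := Pool.Newt2.sSlb g2Tem g2Rat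

theorem g2Evq : Pool.Newt2.SEvq := Pool.Newt2.sEvq g2Sum

theorem g2Psi : Pool.Newt2.SPsi := Pool.Newt2.sPsi g2Evl g2Evq g2Slb

theorem g2Mem : Pool.Newt2.SMem := Pool.Newt2.sMem

theorem g3Trf : Pool.Newt3.STrf := Pool.Newt3.sTrf fNil fKru

theorem g3Lcr : Pool.Newt3.SLcr := Pool.Newt3.sLcr

theorem g3Klk : Pool.Newt3.SKlk := Pool.Newt3.sKlk g2Fnr fExt

theorem g3Rtb : Pool.Newt3.SRtb := Pool.Newt3.sRtb g2Tel g2Fnr g2Min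

theorem g3Rla : Pool.Newt3.SRla := Pool.Newt3.sRla

theorem g3Rlb : Pool.Newt3.SRlb := Pool.Newt3.sRlb

theorem g3Rlc : Pool.Newt3.SRlc := Pool.Newt3.sRlc

theorem g3Fsm : Pool.Newt3.SFsm := Pool.Newt3.sFsm

theorem g3Lvn : Pool.Newt3.SLvn := Pool.Newt3.sLvn

theorem g3Kld : Pool.Newt3.SKld := Pool.Newt3.sKld

theorem g3Kpa : Pool.Newt3.SKpa := Pool.Newt3.sKpa g3Rla g3Rlb g3Fsm g2Sum

theorem g3Kpb : Pool.Newt3.SKpb := Pool.Newt3.sKpb g3Rla g3Rlb g3Fsm g3Lvn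

theorem g3Nul : Pool.Newt3.SNul := Pool.Newt3.sNul

theorem g3Inb : Pool.Newt3.SInb := Pool.Newt3.sInb g2Lpz

theorem g4Lci : Pool.Newt4.SLci := Pool.Newt4.sLci

theorem g4Lcf : Pool.Newt4.SLcf := Pool.Newt4.sLcf

theorem g4Lcv : Pool.Newt4.SLcv := Pool.Newt4.sLcv

theorem g4Kls : Pool.Newt4.SKls := Pool.Newt4.sKls g2Fnr fExt

theorem g5Rgd : Pool.Newt5.SRgd := Pool.Newt5.sRgd

theorem g5Rct : Pool.Newt5.SRct := Pool.Newt5.sRct fPhi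

theorem g5Lcw : Pool.Newt5.SLcw := Pool.Newt5.sLcw fPol g3Lcr

theorem g5Lcz : Pool.Newt5.SLcz := Pool.Newt5.sLcz g4Lci g4Lcf g4Lcv

theorem g5Res : Pool.Newt5.SRes := Pool.Newt5.sRes g5Rgd

theorem g5Kpt : Pool.Newt5.SKpt := Pool.Newt5.sKpt g3Trf g3Kpa g3Kpb g3Kld g3Klk g4Kls

theorem g5Key : Pool.Newt5.SKey := Pool.Newt5.sKey g5Kpt g3Nul g3Rtb g3Rla g3Rlc g2Sum

theorem g5Psb : Pool.Newt5.SPsb := Pool.Newt5.sPsb g5Key g3Rtb g2Evl g2Evq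

theorem g5Zfv : Pool.Newt5.SZfv := Pool.Newt5.sZfv g2Zfm g5Rgd

theorem g5Ztb : Pool.Newt5.SZtb := Pool.Newt5.sZtb g5Zfv g2Mba g2Psi g5Psb g3Inb g2Mem g5Rgd

theorem newton5_main {k : Subfield ℂ} {n : ℕ} (f : MvPolynomial (Fin n) k) (hf : ∃ l, pderiv l f ≠ 0)
    (V : Set (Fin n →₀ ℕ)) (hV : Pool.Newt5.HI.Hull f V)
    (hn : Pool.Newt5.HI.Nondegenerate f ∨ HI.Generic f)
    (hB : ∀ w, HI.Rigid f w → 0 < HI.N f w → ∑ l, w l = HI.N f w ∨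
      Pool.Newt5.HI.SimplicialFrom f w ∨ Pool.Newt5.HI.Labelled f V w ∨
      (HI.Generic f ∧ ((∃ w', HI.Good f w' ∧ 0 < HI.N f w' ∧
        (∑ l, w l) * HI.N f w' = (∑ l, w' l) * HI.N f w) ∨ Pool.Newt5.HI.Simplicial f V w))) :
    ∃ S : Finset (ℤ × ℕ), (∀ p ∈ S, p.1 < 0 ∧ 0 < p.2) ∧
      Zmot k f ∈ RS k (S : Set (ℤ × ℕ)) ∧ ∀ p ∈ S, IsRoot k f (p.1 / p.2) :=
  Pool.Newt5.HI.main fCof fRcg fRoo fNdg g5Rct g5Lcw g5Lcz g5Res g5Rgd g5Ztb f hf V hV hn hB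

end Pool.Newt
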