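import Pool.Agent.H39.Newt.HDefs
import Mathlib.Analysis.Convex.Combination
import Mathlib.LinearAlgebra.AffineSpace.Independent

/-! # Simplicial and labelled facets of a Newton polyhedron, nondegenerate polynomials -/

set_option autoImplicit false

namespace Pool.Newt5.HI

open MvPolynomial
open Pool.Newt.HI (N Face Rigid)

variable {k : Subfield ℂ} {n : ℕ}

/-- `w'` is the normal vector of a facet, `N(w') > 0`, and `|w|/N(w) = |w'|/N(w')` -/
def Same (f : MvPolynomial (Fin n) k) (w w' : Fin n → ℕ) : Prop :=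
  Rigid f w' ∧ 0 < N f w' ∧ (∑ l, w l) * N f w' = (∑ l, w' l) * N f w

/-- `w'` is the normal vector of a facet, `N(w') > 0`, and `|w|/N(w) ≤ |w'|/N(w')` -/
def Above (f : MvPolynomial (Fin n) k) (w w' : Fin n → ℕ) : Prop :=
  Rigid f w' ∧ 0 < N f w' ∧ (∑ l, w l) * N f w' ≤ (∑ l, w' l) * N f w

/-- the exponents of `f` are contained in the convex hull of `V` -/
def Hull (f : MvPolynomial (Fin n) k) (V : Set (Fin n →₀ ℕ)) : Prop :=
  V ⊆ f.support ∧ ∀ m ∈ f.support,
    (fun l => (m l : ℚ)) ∈ convexHull ℚ ((fun (m : Fin n →₀ ℕ) (l : Fin n) => (m l : ℚ)) '' V)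

/-- the facets of the ratio `|w|/N(w)` are simplicial: the exponents from `V` on each of them are
affinely independent -/
def Simplicial (f : MvPolynomial (Fin n) k) (V : Set (Fin n →₀ ℕ)) (w : Fin n → ℕ) : Prop :=
  ∀ w', Same f w w' →
    AffineIndependent ℚ (fun (m : {m // m ∈ Face f w' ∧ m ∈ V}) (l : Fin n) => (m.1 l : ℚ))

/-- the facets with ratio at least `|w|/N(w)` are simplicial: all exponents on each of them are
affinely independent -/
def SimplicialFrom (f : MvPolynomial (Fin n) k) (w : Fin n → ℕ) : Prop :=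
  ∀ w', Above f w w' → AffineIndependent ℚ (fun (m : Face f w') (l : Fin n) => (m.1 l : ℚ))

/-- the facets of the ratio `|w|/N(w)` are B1-facets with compatible apices: there are a set `Y ⊆ V` of
exponents and variables `l(m)`, `m ∈ Y`, `m_(l(m)) = 1`, such that each of these facets is a pyramid of
height one over its part in `{m'_(l(m)) = 0}`, for some apex `m ∈ Y`, and no `m ∈ Y` on the facet is in
the affine span of the other exponents from `V` on the facet -/
def Labelled (f : MvPolynomial (Fin n) k) (V : Set (Fin n →₀ ℕ)) (w : Fin n → ℕ) : Prop :=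
  ∃ (Y : Set (Fin n →₀ ℕ)) (l : (Fin n →₀ ℕ) → Fin n), Y ⊆ V ∧ (∀ m ∈ Y, m (l m) = 1) ∧
    ∀ w', Same f w w' →
      (∃ m ∈ Y, m ∈ Face f w' ∧ w' (l m) ≠ 0 ∧
        ∀ m' ∈ Face f w', m' ∈ V → m' ≠ m → m' (l m) = 0) ∧
      ∀ m ∈ Y, m ∈ Face f w' → (fun j => (m j : ℚ)) ∉ affineSpan ℚ {x : Fin n → ℚ |
        ∃ m' ∈ Face f w', m' ∈ V ∧ m' ≠ m ∧ x = fun j => (m' j : ℚ)}

open Classical in
/-- the face polynomial of the weight `u` -/
noncomputable def facePoly (f : MvPolynomial (Fin n) k) (u : Fin n → ℕ) : MvPolynomial (Fin n) k :=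
  ∑ m ∈ f.support.filter (fun m => m ∈ Face f u), monomial m (f.coeff m)

/-- `f` is nondegenerate with respect to its Newton polyhedron: for every weight `u ∈ ℕ^n` (including
`0`) the hypersurface of the face polynomial in the torus is smooth -/
def Nondegenerate (f : MvPolynomial (Fin n) k) : Prop :=
  ∀ (u : Fin n → ℕ) (z : Fin n → ℂ), (∀ j, z j ≠ 0) → aeval z (facePoly f u) = 0 →
    ∃ l, aeval z (pderiv l (facePoly f u)) ≠ 0

end Pool.Newt5.HI
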