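import Pool.Agent.H39.Newt4.Stmts
import Pool.Agent.H91.Newt.ZET

/-!
# Project NEWTON5 (MP_432c1b_ag): further exponents in the convex hull

Plan: /team-store/NEWTON5_PLAN.md. `V` is a set of exponents whose convex hull contains all exponents.
-/

set_option autoImplicit false

namespace Pool.Newt5

open MvPolynomial Pool.Agent.H39.MonoR Pool.Agent.H75.Mono Pool.Newt Pool.Newt2 Pool.Newt3
open Pool.Newt4 (Nfc)

section Defs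

variable {σ I : Type} [Fintype σ] [Fintype I]

/-- as `Pool.Newt4.Lcl`, with a more general second kind of generators -/
def Lcl (a : I → σ → ℕ) (α : ℚ) : Prop :=
  ∀ (t0 : I → ℝ), ∑ i, t0 i = α → ∀ (W : Finset σ), (∀ l ∈ W, ∑ i, (a i l : ℝ) * t0 i = -1) →
    ∀ T : Finset I, (∀ i, i ∉ T → ∃ m : ℕ, t0 i = -m) →
    (∏ i ∈ Zr t0 0, X i : MvPolynomial I ℂ) ∈ Ideal.span
      (({g | ∃ κ ∈ Ker a, κ ≠ 0 ∧ g = ∏ i ∈ Zr t0 κ, X i} ∪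
        {g | ∃ δ δ' : I → ℤ, 0 < ∑ i, δ' i ∧ (∀ i, 0 ≤ δ i → 0 ≤ δ' i) ∧
          g = (∏ i ∈ Zr t0 δ, X i) *
            ∏ l ∈ W.filter (fun l => 0 < ∑ i, δ' i * (a i l : ℤ)), lfC (fun i => (a i l : ℤ))}) ∪
        {g | ∃ S : Finset I, Nfc a α T S ∧ g = ∏ i ∈ S, X i})

/-- the local form for `t0` supported on `V` -/
def LclV (a : I → σ → ℕ) (V : Finset I) (α : ℚ) : Prop :=
  ∀ (t0 : I → ℝ), ∑ i, t0 i = α → (∀ i, i ∉ V → t0 i = 0) →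
    ∀ (W : Finset σ), (∀ l ∈ W, ∑ i, (a i l : ℝ) * t0 i = -1) →
    ∀ T : Finset I, T ⊆ V → (∀ i, i ∉ T → ∃ m : ℕ, t0 i = -m) →
    (∏ i ∈ Zr t0 0, X i : MvPolynomial I ℂ) ∈ Ideal.span
      (({g | ∃ κ ∈ Ker a, κ ≠ 0 ∧ ((∃ j, j ∉ V ∧ κ j < 0) ∨ ∀ j, j ∉ V → κ j = 0) ∧
          g = ∏ i ∈ Zr t0 κ, X i} ∪
        {g | ∃ δ : I → ℤ, ∑ i, δ i = 1 ∧ g = (∏ i ∈ Zr t0 δ, X i) *
          ∏ l ∈ W.filter (fun l => 0 < ∑ i, δ i * (a i l : ℤ)), lfC (fun i => (a i l : ℤ))}) ∪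
        {g | ∃ S : Finset I, Nfc a α T S ∧ g = ∏ i ∈ S, X i})

/-- the local form without the first kind -/
def Lcz (a : I → σ → ℕ) (α : ℚ) : Prop :=
  ∀ (t0 : I → ℝ), ∑ i, t0 i = α → ∀ (W : Finset σ), (∀ l ∈ W, ∑ i, (a i l : ℝ) * t0 i = -1) →
    ∀ T : Finset I, (∀ i, i ∉ T → ∃ m : ℕ, t0 i = -m) →
    (∏ i ∈ Zr t0 0, X i : MvPolynomial I ℂ) ∈ Ideal.span
      ({g | ∃ δ : I → ℤ, ∑ i, δ i = 1 ∧ g = (∏ i ∈ Zr t0 δ, X i) *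
          ∏ l ∈ W.filter (fun l => 0 < ∑ i, δ i * (a i l : ℤ)), lfC (fun i => (a i l : ℤ))} ∪
        {g | ∃ S : Finset I, Nfc a α T S ∧ g = ∏ i ∈ S, X i})

/-- all exponents are convex combinations of the exponents in `V` -/
def Cvx (a : I → σ → ℕ) (V : Finset I) : Prop :=
  ∀ j, ∃ q : I → ℚ, (∀ i, 0 ≤ q i) ∧ (∀ i, i ∉ V → q i = 0) ∧ ∑ i, q i = 1 ∧
    ∀ l, ∑ i, q i * (a i l : ℚ) = (a j l : ℚ)

/-- the restriction to `V` -/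
def rst (a : I → σ → ℕ) (V : Finset I) : V → σ → ℕ := fun i => a i

end Defs

/-! ### b-side -/

/-- RCT: the recurrence with domination (adapt REC of Newt) -/
def SRct : Prop :=
  ∀ (σ I : Type) [Fintype σ] [Fintype I] (a : I → σ → ℕ) (V : Finset I) (α : ℚ) (K : ℕ),
    Rcg a α K → ∃ R : Rec a ∅ α K, ∀ κ ∈ R.Dk, κ ≠ 0 → R.r κ ≠ 0 →
      (∃ j, j ∉ V ∧ κ j < 0) ∨ ∀ j, j ∉ V → κ j = 0

/-- LCW: the generic case (from POL of Newt, LCR of Newt3) -/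
def SLcw : Prop :=
  ∀ (σ I : Type) [Fintype σ] [Fintype I] (a : I → σ → ℕ) (V : Finset I) (α : ℚ) (K : ℕ)
    (R : Rec a ∅ α K), (∀ κ ∈ R.Dk, κ ≠ 0 → R.r κ ≠ 0 →
      (∃ j, j ∉ V ∧ κ j < 0) ∨ ∀ j, j ∉ V → κ j = 0) → Fintype.card I < K → LclV a V α

/-- LCZ: arbitrary coefficients (from LCI, LCF, LCV of Newt4) -/
def SLcz : Prop :=
  ∀ (σ I : Type) [Fintype σ] [Fintype I] [Nonempty I] (k : Type) [Field k] [Algebra k ℂ]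
    (a : I → σ → ℕ) (c : I → k), (∀ i, c i ≠ 0) → ∀ (b : Polynomial k) (Γ : Finset (σ → ℤ))
    (r : (σ → ℤ) → MvPolynomial (Option σ) k), CofId a c b Γ r → ∀ α : ℚ,
    b.eval (α : k) ≠ 0 →
    (∀ w : σ → ℕ, Rigid a w → 0 < Nw a w → -α * (Nw a w : ℚ) ≤ ((∑ l, w l : ℕ) : ℚ) →
      ∀ κ ∈ Ker a, (∀ i, i ∉ face a w → κ i = 0) → κ = 0) → Lcz a α

/-- RES: restriction to `V` -/
def SRes : Prop :=
  ∀ (σ I : Type) [Fintype σ] [Fintype I] [Nonempty I] (a : I → σ → ℕ) (V : Finset I), Cvx a V →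
    ∀ α : ℚ, LclV a V α → Lcl (rst a V) α

/-- RGD: comparison of the facets -/
def SRgd : Prop :=
  ∀ (σ I : Type) [Fintype σ] [Fintype I] [Nonempty I] (a : I → σ → ℕ) (V : Finset I), Cvx a V →
    Nonempty V ∧ ∀ w : σ → ℕ, Nw (rst a V) w = Nw a w ∧
      (∀ i : V, i ∈ face (rst a V) w ↔ (i : I) ∈ face a w) ∧
      (Rigid (rst a V) w → Rigid a w)

/-! ### zeta side -/

open Classical in
/-- ZFV: the zeta function in terms of the series of `V` (from ZFM of Newt2, RGD) -/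
def SZfv : Prop :=
  ∀ (k : Type) [Field k] [Algebra k ℂ] (σ I : Type) [Fintype σ] [Fintype I] [Nonempty I]
    (a : I → σ → ℕ) (c : I → k), (∀ i, c i ≠ 0) → Ndg a c → Function.Injective a →
    ∀ V : Finset I, Cvx a V → ∃ C : Finset V → k → M k,
    (∀ (τ : Finset V) (i : V) (l : σ) (v : k), Val (rst a V) τ i l →
      C τ v + C (τ.erase i) v = ((↑(Lu k) : M k) - 1) ^ (rk (rst a V) τ - 1)) ∧
    C ∅ 1 = 0 ∧ C ∅ 0 = 1 ∧ ∃ Z0 ∈ RS k {((-1 : ℤ), (1 : ℕ))}, Zmot k (poly a c) = Z0 +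
      ∑ τ : Finset V, (PowerSeries.C (C τ 1) + PowerSeries.C (C τ 0) * ZET_H (Lu k)) *
        PowerSeries.map (ev (Lu k)) (Fs (rst a V) τ)

/-! ### the modules of NEWTON3 with `Lcl` -/

open Classical in
/-- KPT5 -/
def SKpt : Prop :=
  ∀ (σ I : Type) [Fintype σ] [Fintype I] [Nonempty I] (a : I → σ → ℕ) (α : ℚ),
    Lcl a α → Simp a α →
    ∀ P : Finset I, (∀ i l, ¬ Val a P i l) → ∀ x : ℝ, 1 < x →
    ∀ p : I → ℂˣ, ‖((pw p fun _ => 1 : ℂˣ) : ℂ)‖ = x ^ (α : ℝ) →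
    ∃ h : GR I, evp p h ≠ 0 ∧
      ∀ g : GR I, Pol (Lc a ((x : ℂ)⁻¹) (phz P) (g * (h * yy ((x : ℂ)⁻¹) P)))

open Classical in
/-- KEY5 -/
def SKey : Prop :=
  ∀ (σ I : Type) [Fintype σ] [Fintype I] [Nonempty I] (a : I → σ → ℕ) (α : ℚ),
    Lcl a α → Simp a α →
    ∀ P : Finset I, (∀ i l, ¬ Val a P i l) → ∀ x : ℝ, 1 < x →
    RegC (x ^ (-(α : ℝ))) (PowerSeries.map Complex.ofRealHom (Ser a x⁻¹ (phi x P Finset.univ)))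

/-- PSB5 -/
def SPsb : Prop :=
  ∀ (σ I : Type) [Fintype σ] [Fintype I] [Nonempty I] (a : I → σ → ℕ) (α : ℚ),
    Lcl a α → Simp a α →
    ∀ x : ℝˣ, 1 < (x : ℝ) → ∀ D : Finset I → ℤ, Inv2 a D →
    (D ∅ = 0 → RegC ((x : ℝ) ^ (-(α : ℝ)))
      (PowerSeries.map (Complex.ofRealHom.comp (ev x)) (Psi a D))) ∧
    (D ∅ = 1 → RegC ((x : ℝ) ^ (-(α : ℝ)))
      (PowerSeries.map (Complex.ofRealHom.comp (ev x)) ((1 - PowerSeries.X) * Psi a D - QQ a)))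

/-- the hypothesis on the ratios in `B` -/
def HypB {σ I : Type} [Fintype σ] [Fintype I] (a : I → σ → ℕ) (B : Set ℚ) : Prop :=
  ∀ α ∈ B, (Simp a α ∧ Lcl a α) ∨
    ∃ (Y : Finset I) (l : I → σ), (∀ i ∈ Y, a i (l i) = 1) ∧ ∀ w, Rigid a w → 0 < Nw a w →
      ((∑ j, w j : ℕ) : ℚ) = -α * (Nw a w : ℚ) → Lab a Y l w

/-- ZTB5 (from ZFV, and MBA, PSI, MEM of Newt2, INB of Newt3, PSB) -/
def SZtb : Prop :=
  ∀ (k : Type) [Field k] [Algebra k ℂ] (σ I : Type) [Fintype σ] [Fintype I] [Nonempty I]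
    (a : I → σ → ℕ) (c : I → k), (∀ i, c i ≠ 0) → Ndg a c → Function.Injective a →
    ∀ V : Finset I, Cvx a V → ∀ B : Set ℚ, HypB (rst a V) B →
    ∃ R : Finset (σ → ℕ), (∀ w ∈ R, Rigid a w ∧ 0 < Nw a w ∧
      -((∑ j, w j : ℕ) : ℚ) / (Nw a w : ℚ) ∉ B) ∧
      Zmot k (poly a c) ∈ RS k ({((-1 : ℤ), (1 : ℕ))} ∪
        {p | ∃ w ∈ R, p = (-((∑ j, w j : ℕ) : ℤ), Nw a w)})

end Pool.Newt5
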